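import Mathlib

/-!
# AB3E, Gx: group theory
-/

set_option autoImplicit false
set_option linter.unusedSectionVars false

namespace Pool.Agent.AB3

/-- a lift which is unique is compatible with conjugation -/
theorem conj_eq {Γ G : Type} [Group Γ] [Group G] (N : Subgroup Γ) [hN : N.Normal]
    (V H : Subgroup G) [V.Normal] [H.Normal] (hc : ∀ v ∈ V, ∀ h ∈ H, v * h = h * v)
    (hVV : ∀ v ∈ V, ∀ w ∈ V, v * w = w * v) (Φ : Γ →* G ⧸ V) (θ : N →* G)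
    (hθH : ∀ σ, θ σ ∈ H) (hθ : ∀ σ : N, (QuotientGroup.mk' V (θ σ)) = Φ σ)
    (huniq : ∀ χ : N →* V, χ = 1) (γ : Γ) (g : G) (hg : QuotientGroup.mk' V g = Φ γ) (σ : N) :
    θ ⟨γ * σ * γ⁻¹, hN.conj_mem σ σ.2 γ⟩ = g * θ σ * g⁻¹ := by
  have hmem : ∀ σ : N, g⁻¹ * θ ⟨γ * σ * γ⁻¹, hN.conj_mem σ σ.2 γ⟩ * g * (θ σ)⁻¹ ∈ V := by
    intro σ
    rw [← QuotientGroup.ker_mk' V, MonoidHom.mem_ker]
    rw [map_mul, map_mul, map_mul, map_inv, map_inv, hg, hθ, hθ]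
    change (Φ γ)⁻¹ * Φ (γ * σ * γ⁻¹) * Φ γ * (Φ σ)⁻¹ = 1
    rw [map_mul, map_mul, map_inv]
    group
  let χ : N →* V := MonoidHom.mk'
    (fun σ => ⟨g⁻¹ * θ ⟨γ * σ * γ⁻¹, hN.conj_mem σ σ.2 γ⟩ * g * (θ σ)⁻¹, hmem σ⟩) (by
      intro σ τ
      apply Subtype.ext
      change g⁻¹ * θ ⟨γ * (σ * τ : N) * γ⁻¹, _⟩ * g * (θ (σ * τ))⁻¹ =
        g⁻¹ * θ ⟨γ * σ * γ⁻¹, hN.conj_mem σ σ.2 γ⟩ * g * (θ σ)⁻¹ *
          (g⁻¹ * θ ⟨γ * τ * γ⁻¹, hN.conj_mem τ τ.2 γ⟩ * g * (θ τ)⁻¹)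
      have h1 : (⟨γ * (σ * τ : N) * γ⁻¹, hN.conj_mem (σ * τ : N) (σ * τ : N).2 γ⟩ : N) =
          ⟨γ * σ * γ⁻¹, hN.conj_mem σ σ.2 γ⟩ * ⟨γ * τ * γ⁻¹, hN.conj_mem τ τ.2 γ⟩ := by
        apply Subtype.ext
        change γ * ((σ : Γ) * (τ : Γ)) * γ⁻¹ = γ * σ * γ⁻¹ * (γ * τ * γ⁻¹)
        group
      rw [h1, map_mul, map_mul]
      have h2 := hVV _ (hmem σ) _ (hmem τ)
      have h3 := hc _ (hmem τ) _ (hθH σ)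
      generalize hA : θ ⟨γ * σ * γ⁻¹, hN.conj_mem σ σ.2 γ⟩ = A at *
      generalize hB : θ ⟨γ * τ * γ⁻¹, hN.conj_mem τ τ.2 γ⟩ = B at *
      calc g⁻¹ * (A * B) * g * (θ σ * θ τ)⁻¹
          = (g⁻¹ * A * g * (θ σ)⁻¹) * (θ σ * (g⁻¹ * B * g * (θ τ)⁻¹)) * (θ σ)⁻¹ := by group
        _ = (g⁻¹ * A * g * (θ σ)⁻¹) * ((g⁻¹ * B * g * (θ τ)⁻¹) * θ σ) * (θ σ)⁻¹ := by rw [h3]
        _ = _ := by group)
  have h1 := congrArg (fun f : N →* V => ((f σ : V) : G)) (huniq χ)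
  have h2 : g⁻¹ * θ ⟨γ * σ * γ⁻¹, hN.conj_mem σ σ.2 γ⟩ * g * (θ σ)⁻¹ = 1 := h1
  generalize θ ⟨γ * σ * γ⁻¹, hN.conj_mem σ σ.2 γ⟩ = A at *
  rw [mul_inv_eq_one] at h2
  rw [← h2]
  group

/-- extension of a homomorphism from a normal subgroup with cyclic quotient -/
theorem ext_hom {Γ G : Type} [Group Γ] [Group G] (N : Subgroup Γ) [hN : N.Normal] (θ : N →* G)
    (γ : Γ) (g : G) (D : ℕ) (hD : 0 < D) (hgen : ∀ x : Γ, ∃ i : ℕ, x * γ ^ i ∈ N)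
    (hdiv : ∀ i : ℕ, γ ^ i ∈ N → D ∣ i) (hγ : γ ^ D ∈ N) (hθ : θ ⟨γ ^ D, hγ⟩ = g ^ D)
    (hconj : ∀ σ : N, θ ⟨γ * σ * γ⁻¹, hN.conj_mem σ σ.2 γ⟩ = g * θ σ * g⁻¹) :
    ∃ ψ : Γ →* G, (∀ σ : N, ψ σ = θ σ) ∧ ψ γ = g := by
  have hI : ∀ (n : ℕ) (x : Γ) (hx : x ∈ N),
      θ ⟨γ ^ n * x * (γ ^ n)⁻¹, hN.conj_mem x hx (γ ^ n)⟩ = g ^ n * θ ⟨x, hx⟩ * (g ^ n)⁻¹ := by
    intro n
    induction n with
    | zero =>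
      intro x hx
      have h1 : (⟨γ ^ 0 * x * (γ ^ 0)⁻¹, hN.conj_mem x hx (γ ^ 0)⟩ : N) = ⟨x, hx⟩ := by
        apply Subtype.ext
        change γ ^ 0 * x * (γ ^ 0)⁻¹ = x
        simp
      rw [h1]
      simp
    | succ n ih =>
      intro x hx
      have h1 : (⟨γ ^ (n + 1) * x * (γ ^ (n + 1))⁻¹, hN.conj_mem x hx (γ ^ (n + 1))⟩ : N) =
          ⟨γ * (⟨γ ^ n * x * (γ ^ n)⁻¹, hN.conj_mem x hx (γ ^ n)⟩ : N) * γ⁻¹,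
            hN.conj_mem _ (hN.conj_mem x hx (γ ^ n)) γ⟩ := by
        apply Subtype.ext
        change γ ^ (n + 1) * x * (γ ^ (n + 1))⁻¹ = γ * (γ ^ n * x * (γ ^ n)⁻¹) * γ⁻¹
        rw [pow_succ']
        group
      rw [h1, hconj, ih x hx, pow_succ']
      group
  have hP : ∀ (k : ℕ) (h : (γ ^ D) ^ k ∈ N), θ ⟨(γ ^ D) ^ k, h⟩ = (g ^ D) ^ k := by
    intro k h
    have h1 : (⟨(γ ^ D) ^ k, h⟩ : N) = (⟨γ ^ D, hγ⟩ : N) ^ k := by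
      apply Subtype.ext
      simp
    rw [h1, map_pow, hθ]
  have hW0 : ∀ (x : Γ) (i j : ℕ) (hi : x * γ ^ i ∈ N) (hj : x * γ ^ j ∈ N), i ≤ j →
      θ ⟨x * γ ^ i, hi⟩ * (g ^ i)⁻¹ = θ ⟨x * γ ^ j, hj⟩ * (g ^ j)⁻¹ := by
    intro x i j hi hj hij
    obtain ⟨m, rfl⟩ := Nat.exists_eq_add_of_le hij
    have h1 : γ ^ m ∈ N := by
      have h2 := N.mul_mem (N.inv_mem hi) hj
      have h3 : (x * γ ^ i)⁻¹ * (x * γ ^ (i + m)) = γ ^ m := by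
        rw [pow_add]
        group
      rwa [h3] at h2
    obtain ⟨k, rfl⟩ := hdiv m h1
    have h4 : (γ ^ D) ^ k ∈ N := by rwa [← pow_mul]
    have h5 : (⟨x * γ ^ (i + D * k), hj⟩ : N) = ⟨x * γ ^ i, hi⟩ * ⟨(γ ^ D) ^ k, h4⟩ := by
      apply Subtype.ext
      change x * γ ^ (i + D * k) = x * γ ^ i * (γ ^ D) ^ k
      rw [pow_add, pow_mul, mul_assoc]
    rw [h5, map_mul, hP, ← pow_mul, pow_add]
    group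
  have hW : ∀ (x : Γ) (i j : ℕ) (hi : x * γ ^ i ∈ N) (hj : x * γ ^ j ∈ N),
      θ ⟨x * γ ^ i, hi⟩ * (g ^ i)⁻¹ = θ ⟨x * γ ^ j, hj⟩ * (g ^ j)⁻¹ := by
    intro x i j hi hj
    rcases le_total i j with h | h
    · exact hW0 x i j hi hj h
    · exact (hW0 x j i hj hi h).symm
  choose e he using hgen
  refine ⟨MonoidHom.mk' (fun x => θ ⟨x * γ ^ e x, he x⟩ * (g ^ e x)⁻¹) ?_, ?_, ?_⟩
  · intro x y
    have h1 : y * γ ^ e y ∈ N := he y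
    have h0 : x * γ ^ e x ∈ N := he x
    have h2 : (γ ^ e x)⁻¹ * (y * γ ^ e y) * γ ^ e x ∈ N := by
      have := hN.conj_mem _ h1 (γ ^ e x)⁻¹
      rwa [inv_inv] at this
    have h3 : x * y * γ ^ (e y + e x) =
        (x * γ ^ e x) * ((γ ^ e x)⁻¹ * (y * γ ^ e y) * γ ^ e x) := by
      rw [pow_add]
      group
    have h4 : x * y * γ ^ (e y + e x) ∈ N := by
      rw [h3]
      exact N.mul_mem h0 h2
    have h5 := hW (x * y) (e (x * y)) (e y + e x) (he (x * y)) h4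
    have h6 : (⟨x * y * γ ^ (e y + e x), h4⟩ : N) = ⟨x * γ ^ e x, h0⟩ *
        ⟨(γ ^ e x)⁻¹ * (y * γ ^ e y) * γ ^ e x, h2⟩ := Subtype.ext h3
    have h7 := hI (e x) _ h2
    have h8 : (⟨γ ^ e x * ((γ ^ e x)⁻¹ * (y * γ ^ e y) * γ ^ e x) * (γ ^ e x)⁻¹,
        hN.conj_mem _ h2 (γ ^ e x)⟩ : N) = ⟨y * γ ^ e y, h1⟩ := by
      apply Subtype.ext
      change γ ^ e x * ((γ ^ e x)⁻¹ * (y * γ ^ e y) * γ ^ e x) * (γ ^ e x)⁻¹ = y * γ ^ e y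
      group
    rw [h8] at h7
    change θ ⟨x * y * γ ^ e (x * y), _⟩ * (g ^ e (x * y))⁻¹ = _
    rw [h5, h6, map_mul]
    change _ = θ ⟨x * γ ^ e x, h0⟩ * (g ^ e x)⁻¹ * (θ ⟨y * γ ^ e y, h1⟩ * (g ^ e y)⁻¹)
    rw [h7, pow_add]
    group
  · intro σ
    have h1 : (σ : Γ) * γ ^ 0 ∈ N := by
      rw [pow_zero, mul_one]
      exact σ.2
    have h2 := hW σ (e σ) 0 (he σ) h1
    change θ ⟨(σ : Γ) * γ ^ e σ, _⟩ * (g ^ e (σ : Γ))⁻¹ = θ σ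
    rw [h2]
    have h3 : (⟨(σ : Γ) * γ ^ 0, h1⟩ : N) = σ := by
      apply Subtype.ext
      change (σ : Γ) * γ ^ 0 = σ
      simp
    rw [h3]
    simp
  · obtain ⟨d, rfl⟩ : ∃ d, D = d + 1 := ⟨D - 1, by omega⟩
    have h1 : γ * γ ^ d ∈ N := by rwa [← pow_succ']
    have h2 := hW γ (e γ) d (he γ) h1
    change θ ⟨γ * γ ^ e γ, _⟩ * (g ^ e γ)⁻¹ = g
    rw [h2]
    have h3 : (⟨γ * γ ^ d, h1⟩ : N) = ⟨γ ^ (d + 1), hγ⟩ := by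
      apply Subtype.ext
      change γ * γ ^ d = γ ^ (d + 1)
      rw [pow_succ']
    rw [h3, hθ, pow_succ']
    group

end Pool.Agent.AB3
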