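import Mathlib

/-!
# AB3E, Gy: characters
-/

set_option autoImplicit false
set_option linter.unusedSectionVars false

namespace Pool.Agent.AB3

/-- a finite vector space over `F_l` has coordinates -/
theorem Gy_coord (l : ℕ) [Fact l.Prime] (A : Type) [AddCommGroup A] [Finite A]
    [Module (ZMod l) A] : ∃ r : ℕ, Nonempty (A ≃+ (Fin r → ZMod l)) :=
  ⟨_, ⟨(Module.finBasis (ZMod l) A).equivFun.toAddEquiv⟩⟩

/-- a finite elementary abelian group has coordinates -/
theorem Gy_coord' (l : ℕ) (hl : l.Prime) (A : Type) [CommGroup A] [Finite A]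
    (hA : ∀ a : A, a ^ l = 1) : ∃ r : ℕ, Nonempty (Additive A ≃+ (Fin r → ZMod l)) := by
  have : Fact l.Prime := ⟨hl⟩
  let _ : Module (ZMod l) (Additive A) := AddCommGroup.zmodModule (n := l) (by
    intro x
    apply Additive.toMul.injective
    rw [toMul_nsmul, toMul_zero]
    exact hA _)
  exact Gy_coord l (Additive A)

/-- an elementary abelian group is a product of groups of roots of unity -/
theorem exists_chars (k : Type) [Field k] (l : ℕ) (hl : l.Prime) (ζ : k)
    (hζ : IsPrimitiveRoot ζ l) (G : Type) [Group G] [Finite G] (V : Subgroup G)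
    (hVV : ∀ v ∈ V, ∀ w ∈ V, v * w = w * v) (hV : ∀ v ∈ V, v ^ l = 1) :
    ∃ (r : ℕ) (ι : Fin r → G → k), (∀ j, ∀ v ∈ V, ι j v ^ l = 1) ∧
      (∀ j, ∀ v ∈ V, ∀ w ∈ V, ι j (v * w) = ι j v * ι j w) ∧
      (∀ v ∈ V, (∀ j, ι j v = 1) → v = 1) ∧
      ∀ ξ : Fin r → k, (∀ j, ξ j ^ l = 1) → ∃ v ∈ V, ∀ j, ι j v = ξ j := by
  classical
  have : NeZero l := ⟨hl.ne_zero⟩
  let _ : CommGroup V :=
    { (inferInstance : Group V) with
      mul_comm := fun a b => Subtype.ext (hVV a a.2 b b.2) }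
  obtain ⟨r, ⟨b⟩⟩ := Gy_coord' l hl V (fun a => Subtype.ext (hV a a.2))
  let c : Fin r → (v : G) → v ∈ V → ZMod l :=
    fun j v hv => b (Additive.ofMul ⟨v, hv⟩) j
  let ι : Fin r → G → k :=
    fun j v => if hv : v ∈ V then ζ ^ (c j v hv).val else 1
  have hι : ∀ j v (hv : v ∈ V), ι j v = ζ ^ (c j v hv).val := fun j v hv => dif_pos hv
  have hpow : ∀ a b : ZMod l, ζ ^ (a + b).val = ζ ^ a.val * ζ ^ b.val := by
    intro a b
    rw [ZMod.val_add, ← pow_add]
    have h1 : ∀ m : ℕ, ζ ^ (m % l) = ζ ^ m := by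
      intro m
      conv_rhs => rw [← Nat.div_add_mod m l]
      rw [pow_add, pow_mul, hζ.pow_eq_one, one_pow, one_mul]
    exact h1 _
  refine ⟨r, ι, ?_, ?_, ?_, ?_⟩
  · intro j v hv
    rw [hι j v hv, ← pow_mul, mul_comm, pow_mul, hζ.pow_eq_one, one_pow]
  · intro j v hv w hw
    rw [hι j v hv, hι j w hw, hι j _ (V.mul_mem hv hw), ← hpow]
    congr 2
    change b (Additive.ofMul ⟨v * w, _⟩) j = b (Additive.ofMul ⟨v, hv⟩) j +
      b (Additive.ofMul ⟨w, hw⟩) j
    rw [← Pi.add_apply, ← map_add]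
    rfl
  · intro v hv h
    have h1 : b (Additive.ofMul ⟨v, hv⟩) = 0 := by
      ext j
      have h2 := h j
      rw [hι j v hv] at h2
      have h3 := (hζ.pow_eq_one_iff_dvd _).mp h2
      have h4 : (c j v hv).val < l := ZMod.val_lt _
      have h5 : (c j v hv).val = 0 := Nat.eq_zero_of_dvd_of_lt h3 h4
      rw [ZMod.val_eq_zero] at h5
      exact h5
    have h2 : Additive.ofMul (⟨v, hv⟩ : V) = 0 := by
      rwa [map_eq_zero_iff b b.injective] at h1
    have h3 : (⟨v, hv⟩ : V) = 1 := h2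
    exact congrArg Subtype.val h3
  · intro ξ hξ
    have h1 : ∀ j, ∃ i < l, ζ ^ i = ξ j := fun j => hζ.eq_pow_of_pow_eq_one (hξ j)
    choose n hn hnξ using h1
    let x : Additive V := b.symm (fun j => (n j : ZMod l))
    refine ⟨(Additive.toMul x : V), (Additive.toMul x).2, ?_⟩
    intro j
    rw [hι j _ (Additive.toMul x).2, ← hnξ j]
    congr 1
    change (b (Additive.ofMul (Additive.toMul x)) j).val = n j
    rw [ofMul_toMul, AddEquiv.apply_symm_apply, ZMod.val_natCast, Nat.mod_eq_of_lt (hn j)]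

end Pool.Agent.AB3
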