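import Pool.Agent.Lib.MP_5de024_nt.S.Defs
import Pool.Agent.Lib.MP_5de024_nt.C.Km2

/-!
# AB3E, MsA: adjoining roots; no tame quotients; constants
-/

set_option autoImplicit false
set_option linter.unusedSectionVars false

namespace Pool.Agent.AB3

open Pool.Agent.AB Polynomial

/-- the subfield of constants -/
def MsA_cst (p : ℕ) [Fact p.Prime] (K : Type) [Field K] [CharP K p] : Subfield K where
  carrier := {c | IsCst p c}
  mul_mem' := IsCst.mul
  one_mem' := IsCst.one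
  add_mem' := IsCst.add
  zero_mem' := IsCst.zero
  neg_mem' := IsCst.neg
  inv_mem' := fun _ h => h.inv

/-- the action of a group of automorphisms on the constants -/
@[reducible] noncomputable def MsA_act (p : ℕ) [Fact p.Prime] (M : Type) [Field M] [CharP M p]
    [Algebra (Fx p) M] (H : Subgroup (Gl p M)) : MulSemiringAction H (MsA_cst p M) where
  smul t c := ⟨(t : Gl p M) (c : M), (c.2 : IsCst p (c : M)).map ((t : Gl p M) : M →+* M)⟩
  one_smul _ := Subtype.ext rfl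
  mul_smul _ _ _ := Subtype.ext rfl
  smul_zero t := Subtype.ext (map_zero (t : Gl p M))
  smul_add t _ _ := Subtype.ext (map_add (t : Gl p M) _ _)
  smul_one t := Subtype.ext (map_one (t : Gl p M))
  smul_mul t _ _ := Subtype.ext (map_mul (t : Gl p M) _ _)

/-- an automorphism of `M` which fixes all constants fixed by the subgroup `H` acts on the
constants as an element of `H` -/
theorem MsA_lift (p : ℕ) [Fact p.Prime] (M : Type) [Field M] [Algebra (Fx p) M]
    [Finite (Gl p M)] (H : Subgroup (Gl p M)) (τ : Gl p M)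
    (hτ : ∀ c : M, IsCst p c → (∀ t ∈ H, t c = c) → τ c = c) :
    ∃ t ∈ H, ∀ c : M, IsCst p c → τ c = t c := by
  have hch : CharP M p := charP_of_injective_algebraMap (algebraMap (Fx p) M).injective p
  let _ := MsA_act p M H
  have hc : ∀ (t : H) (c : MsA_cst p M), ((t • c : MsA_cst p M) : M) = (t : Gl p M) (c : M) :=
    fun t c => rfl
  have hcm : ∀ (σ : Gl p M) (c : MsA_cst p M), IsCst p (σ (c : M)) := fun σ c =>
    (c.2 : IsCst p (c : M)).map (σ : M →+* M)
  let f : MsA_cst p M ≃ₐ[FixedPoints.subfield H (MsA_cst p M)] MsA_cst p M :=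
    { toFun := fun c => ⟨τ (c : M), hcm τ c⟩
      invFun := fun c => ⟨τ⁻¹ (c : M), hcm τ⁻¹ c⟩
      left_inv := fun c => Subtype.ext (AlgEquiv.symm_apply_apply τ (c : M))
      right_inv := fun c => Subtype.ext (AlgEquiv.apply_symm_apply τ (c : M))
      map_mul' := fun _ _ => Subtype.ext (map_mul τ _ _)
      map_add' := fun _ _ => Subtype.ext (map_add τ _ _)
      commutes' := fun c => Subtype.ext (hτ _ c.1.2 fun t ht => by
        have h1 := c.2 ⟨t, ht⟩
        have h2 := congrArg (fun z : MsA_cst p M => (z : M)) h1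
        exact h2) }
  obtain ⟨t, ht⟩ := FixedPoints.toAlgAut_surjective H (MsA_cst p M) f
  refine ⟨t, t.2, fun c hcc => ?_⟩
  have h1 := congrArg (fun g : MsA_cst p M ≃ₐ[FixedPoints.subfield H (MsA_cst p M)]
    MsA_cst p M => ((g ⟨c, hcc⟩ : MsA_cst p M) : M)) ht
  exact h1.symm

/-- the restriction maps the geometric part onto the geometric part -/
theorem MsA_gcsurj (p : ℕ) [Fact p.Prime] (K M : Type) [Field K] [Field M] [Algebra (Fx p) K]
    [Algebra (Fx p) M] [Finite (Gl p M)] (i : K →ₐ[Fx p] M) (ρ : Gl p M →* Gl p K)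
    (hρ : ∀ τ s, τ (i s) = i (ρ τ s)) (hs : Function.Surjective ρ)
    (hfix : ∀ z : M, (∀ τ : Gl p M, ρ τ = 1 → τ z = z) → ∃ w : K, z = i w) :
    (Gc p M).map ρ = Gc p K := by
  have hinj : Function.Injective i := i.toRingHom.injective
  ext σ
  constructor
  · rintro ⟨τ, hτ, rfl⟩ c hc
    apply hinj
    rw [← hρ]
    exact hτ _ (hc.map (i : K →+* M))
  · intro hσ
    obtain ⟨τ, rfl⟩ := hs σ
    obtain ⟨t, ht, h1⟩ := MsA_lift p M ρ.ker τ (by
      intro c hc hfx
      obtain ⟨w, rfl⟩ := hfix c fun τ' h => hfx τ' h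
      rw [hρ, hσ w ((isCst_map_iff (i : K →+* M)).1 hc)])
    refine ⟨τ * t⁻¹, ?_, ?_⟩
    · intro c hc
      have h2 : IsCst p (t⁻¹ c) := hc.map ((t⁻¹ : Gl p M) : M →+* M)
      rw [AlgEquiv.mul_apply, h1 _ h2]
      exact AlgEquiv.apply_symm_apply t c
    · rw [map_mul, map_inv, (MonoidHom.mem_ker).1 ht, inv_one, mul_one]

/-- the certificate of an element gives the local condition of `kum_fam` -/
theorem MsA_loc (p : ℕ) [Fact p.Prime] (K : Type) [Field K] [Algebra (Fx p) K]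
    [Algebra (Rx p) K] [IsScalarTower (Rx p) (Fx p) K] (n : ℕ) (u : Oc p K) (hu : Cert n u)
    (σ : Gl p K) (P : Ideal (Oc p K)) (hP : P.IsPrime) :
    ∃ (w : K) (a b : Oc p K), a ∉ P ∧ b ∉ P ∧ σ (u : K) * (b : K) = w ^ n * (a : K) := by
  obtain ⟨a0, a1, c0, c1, d0, d1, h0, h1, h2⟩ := hu
  have hone : (1 : Oc p K) ∉ P := fun h => hP.ne_top ((Ideal.eq_top_iff_one P).2 h)
  have key : ∀ a c : Oc p K, a ^ n = u * c → act p K σ c ∉ P →
      ∃ (w : K) (a b : Oc p K), a ∉ P ∧ b ∉ P ∧ σ (u : K) * (b : K) = w ^ n * (a : K) := by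
    intro a c hac hc
    refine ⟨σ (a : K), 1, act p K σ c, hone, hc, ?_⟩
    have h3 := congrArg (fun z : Oc p K => σ (z : K)) hac
    change σ ((a : K) ^ n) = σ ((u : K) * (c : K)) at h3
    rw [map_pow, map_mul] at h3
    rw [act_coe, ← h3]
    change _ = _ * (1 : K)
    rw [mul_one]
  by_cases h3 : act p K σ c0 ∈ P
  · by_cases h4 : act p K σ c1 ∈ P
    · exfalso
      apply hone
      have h5 := congrArg (act p K σ) h2
      rw [map_add, map_mul, map_mul, map_one] at h5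
      rw [← h5]
      exact P.add_mem (P.mul_mem_left _ h3) (P.mul_mem_left _ h4)
    · exact key a1 c1 h1 h4
  · exact key a0 c0 h0 h3

/-- adjoining `n`-th roots of elements whose ideals are `n`-th powers -/
theorem exists_root (p : ℕ) [Fact p.Prime] (K : Type) [Field K] [Algebra (Fx p) K]
    [Algebra (Rx p) K] [IsScalarTower (Rx p) (Fx p) K] (hK : NiK p K) (n : ℕ)
    (hn : n.Coprime p) (ζ : K) (hζ : IsPrimitiveRoot ζ n) (J : Type) [Finite J]
    (u : J → Oc p K) (hu0 : ∀ j, u j ≠ 0) (hu : ∀ j, Cert n (u j)) :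
    ∃ (M : Type) (_ : Field M) (_ : Algebra (Fx p) M) (_ : Algebra (Rx p) M)
      (_ : IsScalarTower (Rx p) (Fx p) M) (i : K →ₐ[Fx p] M) (ρ : Gl p M →* Gl p K),
      NiK p M ∧ Function.Surjective ρ ∧ (Gc p M).map ρ = Gc p K ∧
      (∀ σ z, σ (i z) = i (ρ σ z)) ∧ ∀ j, ∃ w : M, w ^ n = i (u j : K) := by
  obtain ⟨h1, h2, h3⟩ := hK
  have hu0' : ∀ j, (u j : K) ≠ 0 := fun j h => hu0 j (Subtype.ext h)
  obtain ⟨M, i1, i2, i3, i4, i, y, hfd, hgal, hNI, hy, -⟩ :=
    kum_fam p K h3 n hn ζ hζ (Gl p K × J) (fun x => x.1 (u x.2 : K))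
      (fun x => (map_ne_zero x.1).2 (hu0' x.2))
      (fun σ x => ⟨(σ * x.1, x.2), 1, one_ne_zero, by
        rw [one_pow, mul_one]
        rfl⟩)
      (fun x P hP => MsA_loc p K n (u x.2) (hu x.2) x.1 P hP)
  obtain ⟨ρ, hρ1, hρ2, hρ3⟩ := km2_rho (Fx p) K M i
  refine ⟨M, i1, i2, i3, i4, i, ρ, ⟨hfd, hgal, hNI⟩, hρ2,
    MsA_gcsurj p K M i ρ hρ1 hρ2 hρ3, hρ1, fun j => ⟨y (1, j), ?_⟩⟩
  rw [hy]
  rfl

end Pool.Agent.AB3
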