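import Pool.Agent.Lib.MP_5de024_nt.S.GeoX
import Pool.Agent.Lib.MP_5de024_nt.S.GeoA

/-!
# AB3E, MsB: the geometric group has no quotients of order prime to `p`
-/

set_option autoImplicit false
set_option linter.unusedSectionVars false

namespace Pool.Agent.AB3

open Pool.Agent.AB Polynomial

/-- a character of order dividing `l` of the group of a cover is the coboundary of a unit whose
`l`-th power is constant -/
theorem msb_unit {k R H : Type} [Field k] [CommRing R] [Algebra k[X] R] [Group H] [Finite H]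
    (V : Cov k R H) (l : ℕ) (hl : 0 < l) (χ : H → k) (h1 : ∀ g h, χ (g * h) = χ g * χ h)
    (hχ : ∀ h, χ h ^ l = 1) :
    ∃ s t : R, s * t = 1 ∧ (∀ h, algebraMap k[X] R (C (χ h)) * V.act h s = s) ∧
      ∃ c : k, s ^ l = algebraMap k[X] R (C c) := by
  classical
  have : Fintype H := Fintype.ofFinite H
  have hdom : IsDomain R := cov_domain V
  obtain ⟨m, x, y, hxy⟩ := V.coord
  obtain ⟨a, ha⟩ : ∃ a : H → R, a = fun h => algebraMap k[X] R (C (χ h)) := ⟨_, rfl⟩
  have haf : ∀ g h, V.act g (a h) = a h := by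
    intro g h
    rw [ha]
    exact AlgEquiv.commutes _ _
  have ham : ∀ g h, a (g * h) = a g * a h := by
    intro g h
    rw [ha]
    simp only [h1, map_mul]
  have hap : ∀ h, a h ^ l = 1 := by
    intro h
    rw [ha]
    simp only [← map_pow, hχ, map_one]
  have ha1 : a 1 = 1 := by
    have h2 := ham 1 1
    rw [mul_one] at h2
    have h3 : a 1 ≠ 0 := by
      intro h4
      have h5 := hap 1
      rw [h4, zero_pow hl.ne'] at h5
      exact zero_ne_one h5
    exact (mul_left_cancel₀ h3 (h2.symm.trans (mul_one _).symm))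
  -- eigenvectors
  have hT : ∀ r : R, ∀ g, a g * V.act g (∑ h, a h * V.act h r) = ∑ h, a h * V.act h r := by
    intro r g
    rw [map_sum, Finset.mul_sum]
    refine Fintype.sum_equiv (Equiv.mulLeft g) _ _ fun h => ?_
    rw [map_mul, haf, Equiv.coe_mulLeft, ham, map_mul V.act, AlgEquiv.mul_apply, mul_assoc]
  have hsum : ∑ i, x i * (∑ h, a h * V.act h (y i)) = 1 := by
    have h2 : ∑ i, x i * (∑ h, a h * V.act h (y i)) = ∑ h, a h * ∑ i, x i * V.act h (y i) := by
      simp_rw [Finset.mul_sum]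
      rw [Finset.sum_comm]
      refine Finset.sum_congr rfl fun h _ => Finset.sum_congr rfl fun i _ => ?_
      ring
    rw [h2, Finset.sum_eq_single 1]
    · rw [(hxy 1).1 rfl, ha1, one_mul]
    · intro h _ hh
      rw [(hxy h).2 hh, mul_zero]
    · intro h
      exact absurd (Finset.mem_univ _) h
  have hpow : ∀ r : R, (∀ h, a h * V.act h r = r) → ∃ f : k[X], algebraMap k[X] R f = r ^ l := by
    intro r hr
    apply V.fixed
    intro h
    calc V.act h (r ^ l) = (a h) ^ l * (V.act h r) ^ l := by rw [hap, one_mul, map_pow]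
      _ = r ^ l := by rw [← mul_pow, hr h]
  choose! F hF using hpow
  have hex : ∃ n : ℕ, ∃ s : R, (∀ h, a h * V.act h s = s) ∧ s ≠ 0 ∧ (F s).natDegree = n := by
    by_contra hno
    push Not at hno
    have h2 : ∀ s : R, (∀ h, a h * V.act h s = s) → s = 0 := by
      intro s hs
      by_contra h3
      exact hno _ s hs h3 rfl
    rw [Finset.sum_eq_zero fun i _ => by rw [h2 _ (hT (y i)), mul_zero]] at hsum
    exact zero_ne_one hsum
  obtain ⟨s, hsP, hs0, hsn⟩ := Nat.find_spec hex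
  have hmin : ∀ r : R, (∀ h, a h * V.act h r = r) → r ≠ 0 →
      (F s).natDegree ≤ (F r).natDegree := by
    intro r hr hr0
    rw [hsn]
    exact Nat.find_min' hex ⟨r, hr, hr0, rfl⟩
  have hFs : algebraMap k[X] R (F s) = s ^ l := hF s hsP
  have hFs0 : F s ≠ 0 := by
    intro h
    rw [h, map_zero] at hFs
    exact pow_ne_zero l hs0 hFs.symm
  have hdiv : ∀ r : R, (∀ h, a h * V.act h r = r) → ∃ q : k[X], r = algebraMap k[X] R q * s := by
    intro r hr
    obtain ⟨g, hg⟩ := V.fixed (r * s ^ (l - 1)) (by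
      intro h
      calc V.act h (r * s ^ (l - 1)) = (a h) ^ l * V.act h (r * s ^ (l - 1)) := by
            rw [hap, one_mul]
        _ = (a h * V.act h r) * (a h * V.act h s) ^ (l - 1) := by
            rw [map_mul, map_pow, mul_pow]
            obtain ⟨n, rfl⟩ : ∃ n, l = n + 1 := ⟨l - 1, by omega⟩
            rw [Nat.add_sub_cancel, pow_succ]
            ring
        _ = _ := by rw [hr h, hsP h])
    have hgs : r * algebraMap k[X] R (F s) = algebraMap k[X] R g * s := by
      rw [hFs, hg]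
      obtain ⟨n, rfl⟩ : ∃ n, l = n + 1 := ⟨l - 1, by omega⟩
      rw [Nat.add_sub_cancel, pow_succ]
      ring
    refine ⟨g / F s, ?_⟩
    by_contra hne
    obtain ⟨r', hr'⟩ : ∃ r', r' = r - algebraMap k[X] R (g / F s) * s := ⟨_, rfl⟩
    have hr'0 : r' ≠ 0 := by
      rw [hr']
      exact sub_ne_zero.2 hne
    have hr'P : ∀ h, a h * V.act h r' = r' := by
      intro h
      rw [hr', map_sub, map_mul, AlgEquiv.commutes, mul_sub, hr h]
      have h2 := hsP h
      linear_combination (-(algebraMap k[X] R (g / F s))) * h2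
    have h3 : r' * algebraMap k[X] R (F s) = algebraMap k[X] R (g % F s) * s := by
      have h4 : algebraMap k[X] R g = algebraMap k[X] R (F s) * algebraMap k[X] R (g / F s) +
          algebraMap k[X] R (g % F s) := by
        rw [← map_mul, ← map_add, EuclideanDomain.div_add_mod]
      rw [hr', sub_mul, hgs, h4]
      ring
    have ht0 : g % F s ≠ 0 := by
      intro h5
      rw [h5, map_zero, zero_mul] at h3
      rcases mul_eq_zero.1 h3 with h6 | h6
      · exact hr'0 h6
      · exact hFs0 (V.inj (h6.trans (map_zero _).symm))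
    have hdeg : (g % F s).natDegree < (F s).natDegree :=
      Polynomial.natDegree_lt_natDegree ht0 (EuclideanDomain.mod_lt g hFs0)
    have h7 : F r' * F s ^ l = (g % F s) ^ l * F s := by
      apply V.inj
      rw [map_mul, map_mul, map_pow, map_pow, hF r' hr'P, ← mul_pow, h3, mul_pow, hFs]
    have hFr0 : F r' ≠ 0 := by
      intro h8
      have h9 := hF r' hr'P
      rw [h8, map_zero] at h9
      exact pow_ne_zero l hr'0 h9.symm
    have h8 := congrArg Polynomial.natDegree h7
    rw [Polynomial.natDegree_mul hFr0 (pow_ne_zero _ hFs0),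
      Polynomial.natDegree_mul (pow_ne_zero _ ht0) hFs0, Polynomial.natDegree_pow,
      Polynomial.natDegree_pow] at h8
    have h9 := hmin r' hr'P hr'0
    have h10 : l * (g % F s).natDegree < l * (F s).natDegree := Nat.mul_lt_mul_of_pos_left hdeg hl
    omega
  choose q hq using fun i => hdiv _ (hT (y i))
  have hst : s * (∑ i, x i * algebraMap k[X] R (q i)) = 1 := by
    rw [← hsum, Finset.mul_sum]
    refine Finset.sum_congr rfl fun i _ => ?_
    rw [hq i]
    ring
  obtain ⟨t, ht⟩ : ∃ t, t = ∑ i, x i * algebraMap k[X] R (q i) := ⟨_, rfl⟩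
  rw [← ht] at hst
  refine ⟨s, t, hst, fun h => by have h2 := hsP h; rw [ha] at h2; exact h2, ?_⟩
  have hstl : s ^ l * t ^ l = 1 := by rw [← mul_pow, hst, one_pow]
  obtain ⟨G, hG⟩ := V.fixed (t ^ l) (by
    intro h
    apply mul_left_cancel₀ (pow_ne_zero l hs0)
    rw [hstl, ← hFs]
    calc algebraMap k[X] R (F s) * V.act h (t ^ l) = V.act h (algebraMap k[X] R (F s) * t ^ l) := by
          rw [map_mul, AlgEquiv.commutes]
      _ = 1 := by rw [hFs, hstl, map_one])
  have hu : F s * G = 1 := by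
    apply V.inj
    rw [map_mul, hFs, hG, hstl, map_one]
  obtain ⟨c, -, hc⟩ := Polynomial.isUnit_iff.1 (IsUnit.of_mul_eq_one _ hu)
  exact ⟨c, by rw [hc, hFs]⟩

theorem hom_gc (p : ℕ) [Fact p.Prime] (M : Type) [Field M] [Algebra (Fx p) M]
    [Algebra (Rx p) M] [IsScalarTower (Rx p) (Fx p) M] (hM : NiK p M) (l : ℕ) (hl : l.Prime)
    (hlp : l ≠ p) (ζ : M) (hζ : IsPrimitiveRoot ζ l) (W : Type) [CommGroup W] [Finite W]
    (hW : ∀ w : W, w ^ l = 1) (χ : Gc p M →* W) : χ = 1 := by
  classical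
  by_contra hne
  obtain ⟨σ0, hσ0⟩ : ∃ σ, χ σ ≠ 1 := by
    by_contra h
    push Not at h
    exact hne (MonoidHom.ext h)
  have hfd : FiniteDimensional (Fx p) M := hM.1
  have hCh : CharP M p := charP_of p M
  have hl0 : NeZero l := ⟨hl.ne_zero⟩
  have hen : HasEnoughRootsOfUnity M l := { prim := ⟨ζ, hζ⟩, cyc := rootsOfUnity.isCyclic M l }
  have hen2 : HasEnoughRootsOfUnity M (Monoid.exponent W) :=
    HasEnoughRootsOfUnity.of_dvd M (Monoid.exponent_dvd_of_forall_pow_eq_one hW)
  obtain ⟨φ, hφ⟩ := CommGroup.exists_apply_ne_one_of_hasEnoughRootsOfUnity W M hσ0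
  obtain ⟨k, R, H, i1, i2, i3, i4, i5, i6, i7, ⟨mdl⟩⟩ := exists_mdl p M hM
  obtain ⟨ψ, hψ⟩ : ∃ ψ : Gc p M → M, ψ = fun σ => ((φ (χ σ) : Mˣ) : M) := ⟨_, rfl⟩
  have hψm : ∀ σ τ, ψ (σ * τ) = ψ σ * ψ τ := by
    intro σ τ
    rw [hψ]
    simp only [map_mul, Units.val_mul]
  have hψl : ∀ σ, ψ σ ^ l = 1 := by
    intro σ
    rw [hψ]
    simp only [← Units.val_pow_eq_pow_val, ← map_pow, hW, map_one, Units.val_one]
  have hcst : ∀ σ, IsCst p (ψ σ) := by
    intro σ
    have hcop : Nat.Coprime p l :=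
      (Nat.coprime_primes (Fact.out : p.Prime) hl).2 (fun h => hlp h.symm)
    have h2 : p ^ (Nat.totient l) ≡ 1 [MOD l] := Nat.ModEq.pow_totient hcop
    have h3 : 1 ≤ p ^ (Nat.totient l) := Nat.one_le_pow _ _ (Fact.out : p.Prime).pos
    obtain ⟨q, hq⟩ := (Nat.modEq_iff_dvd' h3).1 h2.symm
    refine ⟨Nat.totient l, Nat.totient_pos.2 hl.pos, ?_⟩
    have h4 : p ^ (Nat.totient l) = l * q + 1 := by omega
    rw [h4, pow_succ, pow_mul, hψl, one_pow, one_mul]
  have hex : ∀ h : H, ∃ a : k, ((mdl.e (algebraMap k[X] R (C a)) : Oc p M) : M) = ψ (mdl.j h) :=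
    fun h => (mdl.econst _).1 (hcst _)
  choose a ha using hex
  have hinj : ∀ a b : k, ((mdl.e (algebraMap k[X] R (C a)) : Oc p M) : M) =
      ((mdl.e (algebraMap k[X] R (C b)) : Oc p M) : M) → a = b := by
    intro a b hab
    exact C_injective (mdl.cov.inj (mdl.e.injective (Subtype.ext hab)))
  have ham : ∀ g h, a (g * h) = a g * a h := by
    intro g h
    apply hinj
    rw [ha, map_mul mdl.j, hψm, ← ha, ← ha, C_mul, map_mul, map_mul]
    rfl
  have hal : ∀ h, a h ^ l = 1 := by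
    intro h
    apply hinj
    have h2 : ((mdl.e (algebraMap k[X] R (C (a h ^ l))) : Oc p M) : M) =
        ((mdl.e (algebraMap k[X] R (C (a h))) : Oc p M) : M) ^ l := by
      rw [C_pow, map_pow, map_pow]
      rfl
    rw [h2, ha, hψl, C_1, map_one, map_one]
    rfl
  obtain ⟨s, t, hst, hs, c, hc⟩ := msb_unit mdl.cov l hl.pos a ham hal
  obtain ⟨z, hz⟩ : ∃ z : M, z = ((mdl.e s : Oc p M) : M) := ⟨_, rfl⟩
  have hdom : IsDomain R := cov_domain mdl.cov
  have hz0 : z ≠ 0 := by
    intro h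
    rw [hz] at h
    have h2 : mdl.e s = 0 := Subtype.ext h
    rw [map_eq_zero_iff _ mdl.e.injective] at h2
    rw [h2, zero_mul] at hst
    exact zero_ne_one hst
  have hzl : IsCst p (z ^ l) := by
    refine (mdl.econst _).2 ⟨c, ?_⟩
    rw [← hc, map_pow, hz]
    rfl
  have hzc : IsCst p z := by
    obtain ⟨n, hn, h2⟩ := hzl
    have hzl0 : z ^ l ≠ 0 := pow_ne_zero l hz0
    -- `z` is a root of unity
    have h3 : (z ^ l) ^ (p ^ n - 1) = 1 := by
      have h4 : 1 ≤ p ^ n := Nat.one_le_pow _ _ (Fact.out : p.Prime).pos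
      have h5 : (z ^ l) ^ (p ^ n - 1) * z ^ l = 1 * z ^ l := by
        rw [← pow_succ, Nat.sub_add_cancel h4, h2, one_mul]
      exact mul_right_cancel₀ hzl0 h5
    rw [← pow_mul] at h3
    have hpn : 1 < p ^ n := Nat.one_lt_pow hn.ne' (Fact.out : p.Prime).one_lt
    have hcop : Nat.Coprime p (l * (p ^ n - 1)) := by
      refine Nat.Coprime.mul_right ((Nat.coprime_primes (Fact.out : p.Prime) hl).2
        (fun h => hlp h.symm)) ?_
      have h6 : Nat.Coprime (p ^ n) (p ^ n - 1) := by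
        rw [Nat.coprime_self_sub_right hpn.le]
        exact Nat.coprime_one_right _
      exact Nat.Coprime.coprime_dvd_left (dvd_pow_self p hn.ne') h6
    have hpos : 0 < l * (p ^ n - 1) := Nat.mul_pos hl.pos (by omega)
    have h7 : p ^ (Nat.totient (l * (p ^ n - 1))) ≡ 1 [MOD (l * (p ^ n - 1))] :=
      Nat.ModEq.pow_totient hcop
    have h8 : 1 ≤ p ^ (Nat.totient (l * (p ^ n - 1))) :=
      Nat.one_le_pow _ _ (Fact.out : p.Prime).pos
    obtain ⟨q, hq⟩ := (Nat.modEq_iff_dvd' h8).1 h7.symm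
    refine ⟨Nat.totient (l * (p ^ n - 1)), Nat.totient_pos.2 hpos, ?_⟩
    have h9 : p ^ (Nat.totient (l * (p ^ n - 1))) = l * (p ^ n - 1) * q + 1 := by omega
    rw [h9, pow_succ, pow_mul, h3, one_pow, one_mul]
  obtain ⟨h, hh⟩ := mdl.j.surjective σ0
  have h2 := hs h
  have h3 := congrArg (fun r : R => ((mdl.e r : Oc p M) : M)) h2
  have h4 : ((mdl.e (algebraMap k[X] R (C (a h)) * mdl.cov.act h s) : Oc p M) : M) =
      ψ σ0 * z := by
    rw [map_mul, mdl.eact, hh, ← hh, ← ha, hh]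
    change _ * ((act p M (σ0 : Gl p M) (mdl.e s) : Oc p M) : M) = _
    rw [act_coe, ← hz, σ0.2 z hzc]
  have h5 : ψ σ0 * z = z := by
    rw [← h4, hz]
    exact h3
  have h6 : ψ σ0 = 1 := mul_right_cancel₀ hz0 (h5.trans (one_mul z).symm)
  apply hφ
  apply Units.ext
  rw [hψ] at h6
  exact h6

end Pool.Agent.AB3
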