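import Pool.Agent.Lib.MP_5de024_nt.S.GeoX
import Pool.Agent.Lib.MP_5de024_nt.S.GeoW

/-!
# AB3E, MsC: constant extensions
-/

set_option autoImplicit false
set_option linter.unusedSectionVars false

namespace Pool.Agent.AB3

open Pool.Agent.AB Polynomial

/-- the powers of the Frobenius map which are trivial -/
theorem MsC_dvd (p : ℕ) [Fact p.Prime] (F : Type) [Field F] [Finite F] [CharP F p] (n : ℕ)
    (hn : Nat.card F = p ^ n) (i : ℕ) : (∀ a : F, a ^ p ^ i = a) ↔ n ∣ i := by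
  let _ : Algebra (ZMod p) F := ZMod.algebra F p
  let _ : Fintype F := Fintype.ofFinite F
  have hfr : Module.finrank (ZMod p) F = n := by
    have h1 : Nat.card F = p ^ Module.finrank (ZMod p) F := by
      rw [Module.natCard_eq_pow_finrank (K := ZMod p), Nat.card_zmod]
    exact Nat.pow_right_injective (Fact.out : p.Prime).two_le (h1.symm.trans hn)
  have hn0 : 0 < n := by
    rw [← hfr]
    exact Module.finrank_pos
  have hpow : ∀ a : F, a ^ p ^ n = a := by
    intro a
    rw [← hn, Nat.card_eq_fintype_card]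
    exact FiniteField.pow_card a
  have hit : ∀ (a : F) (j : ℕ), a ^ p ^ (n * j) = a := fun a j => cst_iter (hpow a) j
  constructor
  · intro h
    have h1 : ∀ a : F, a ^ p ^ (i % n) = a := by
      intro a
      have h2 := h a
      rw [← Nat.div_add_mod i n, pow_add, pow_mul, hit] at h2
      exact h2
    have hrn : i % n < n := Nat.mod_lt _ hn0
    have h3 := (FiniteField.bijective_frobeniusAlgHom_pow (ZMod p) F).1
      (a₁ := ⟨i % n, by rw [hfr]; exact hrn⟩) (a₂ := ⟨0, by rw [hfr]; exact hn0⟩) (by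
      ext a
      simp only [AlgHom.coe_pow, FiniteField.coe_frobeniusAlgHom, pow_iterate, ZMod.card]
      rw [h1, pow_zero, pow_one])
    have h4 : i % n = 0 := congrArg Fin.val h3
    exact Nat.dvd_of_mod_eq_zero h4
  · rintro ⟨j, rfl⟩ a
    exact hit a j

/-- an extension of the field of constants of degree `e` -/
theorem exists_cext (p : ℕ) [Fact p.Prime] (M : Type) [Field M] [Algebra (Fx p) M]
    [Algebra (Rx p) M] [IsScalarTower (Rx p) (Fx p) M] (hM : NiK p M) (e : ℕ) (he : 0 < e) :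
    ∃ (M' : Type) (_ : Field M') (_ : Algebra (Fx p) M') (_ : Algebra (Rx p) M')
      (_ : IsScalarTower (Rx p) (Fx p) M') (ρ : Gl p M' →* Gl p M) (m : ℕ) (γ : Gl p M'),
      NiK p M' ∧ Function.Surjective ρ ∧ (Gc p M').map ρ = Gc p M ∧ 0 < m ∧
      (∀ σ : Gl p M', ∃ i : ℕ, σ * γ ^ i ∈ Gc p M') ∧
      (∀ i : ℕ, γ ^ i ∈ Gc p M' ↔ m * e ∣ i) ∧ ρ γ ^ m ∈ Gc p M := by
  obtain ⟨k, R, H, ik, ifk, ick, iR, iA, iH, ifH, ⟨m⟩⟩ := exists_mdl p M hM
  obtain ⟨m0, hm0, hcard⟩ : ∃ m0, 0 < m0 ∧ Nat.card k = p ^ m0 := by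
    let _ := Fintype.ofFinite k
    obtain ⟨n, _, hn⟩ := FiniteField.card k p
    exact ⟨n, n.2, by rw [Nat.card_eq_fintype_card, hn]⟩
  have hne : NeZero e := ⟨he.ne'⟩
  obtain ⟨F, iF, ifF, iAF, hF⟩ : ∃ (F : Type) (_ : Field F) (_ : Finite F) (_ : Algebra k F),
      Nat.card F = p ^ (m0 * e) :=
    ⟨FiniteField.Extension k p e, inferInstance, inferInstance, inferInstance, by
      rw [FiniteField.natCard_extension, hcard, pow_mul]⟩
  have hdom : ∀ (F' : Type) [Field F'] [Algebra k F'] [Algebra F F'] [IsScalarTower k F F'],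
      IsDomain (Fam k F' ((X : F[X]).map (algebraMap F F')) R) := by
    intro F' _ _ _ _
    rw [map_X]
    exact m.cov.geom F'
  obtain ⟨K', i1, i2, i3, i4, ρ, hK', hρ, hρc, m', -, -⟩ := mdl_bc p M hM k R H m F X (by
    intro i
    rw [coeff_X]
    split_ifs
    · exact one_pow p
    · exact zero_pow (Fact.out : p.Prime).ne_zero) (by
    rw [natDegree_X]
    exact one_pos) hdom
  have hchF : CharP F p := charP_of_injective_algebraMap (algebraMap k F).injective p
  obtain ⟨κ, hκ⟩ := gw_kap m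
  obtain ⟨κ', hκ'⟩ := gw_kap m'
  have hfd' : FiniteDimensional (Fx p) K' := hK'.1
  have hgal' : IsGalois (Fx p) K' := hK'.2.1
  obtain ⟨γ, hγ⟩ := gw_frob hκ'
  have hγi : ∀ (i : ℕ) (a : F), κ' (γ ^ i) a = a ^ p ^ i := by
    intro i
    induction i with
    | zero =>
      intro a
      rw [pow_zero, map_one, pow_zero, pow_one]
      rfl
    | succ i ih =>
      intro a
      rw [pow_succ, map_mul]
      change κ' (γ ^ i) (κ' γ a) = _
      rw [ih, hγ, ← pow_mul, pow_succ, mul_comm]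
  refine ⟨K', i1, i2, i3, i4, ρ, m0, γ, hK', hρ, hρc, hm0, ?_, ?_, ?_⟩
  · intro σ
    obtain ⟨j, hj⟩ := gw_endo p F (κ' σ : F →+* F)
    refine ⟨(m0 * e - 1) * j, ?_⟩
    rw [← gw_kap_one hκ']
    intro a
    rw [map_mul]
    change κ' σ (κ' (γ ^ _) a) = a
    rw [hγi]
    have h1 : κ' σ (a ^ p ^ ((m0 * e - 1) * j)) = (a ^ p ^ ((m0 * e - 1) * j)) ^ p ^ j := hj _
    have h2 : (m0 * e - 1) * j + j = m0 * e * j := by
      have h3 : 0 < m0 * e := Nat.mul_pos hm0 he
      obtain ⟨q, hq⟩ : ∃ q, m0 * e = q + 1 := ⟨m0 * e - 1, by omega⟩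
      rw [hq, Nat.add_sub_cancel, Nat.add_mul, Nat.one_mul]
    rw [h1, ← pow_mul, ← pow_add, h2]
    exact (MsC_dvd p F (m0 * e) hF _).2 (dvd_mul_right _ _) a
  · intro i
    rw [← gw_kap_one hκ', ← MsC_dvd p F (m0 * e) hF i]
    exact forall_congr' fun a => by rw [hγi]
  · rw [← gw_kap_one hκ]
    obtain ⟨j, hj⟩ := gw_endo p k (κ (ρ γ) : k →+* k)
    have h1 : ∀ (i : ℕ) (a : k), κ (ρ γ ^ i) a = a ^ p ^ (j * i) := by
      intro i
      induction i with
      | zero =>
        intro a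
        rw [pow_zero, map_one, Nat.mul_zero, pow_zero, pow_one]
        rfl
      | succ i ih =>
        intro a
        rw [pow_succ, map_mul]
        change κ (ρ γ ^ i) (κ (ρ γ) a) = _
        have h2 : κ (ρ γ) a = a ^ p ^ j := hj a
        rw [ih, h2, ← pow_mul, ← pow_add, Nat.mul_succ, Nat.add_comm]
    intro a
    rw [h1]
    exact (MsC_dvd p k m0 hcard _).2 (dvd_mul_left _ _) a

end Pool.Agent.AB3
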