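import Mathlib

/-!
# AB3E, Th: the lift defined by the roots
-/

set_option autoImplicit false
set_option linter.unusedSectionVars false

namespace Pool.Agent.AB3

/-- `Γ` acts on the field `M`, `π : G → H` is an extension with central kernel `V`, `α j` is an
`l`-th root of `A j` and `b j / s j` is a crossed homomorphism on `G` with `l`-th power
`g (A j) / A j` -/
theorem theta_exists {M Γ H G J : Type} [Field M] [Group Γ] [Group H] [Group G]
    (aΓ : Γ →* (M ≃+* M)) (q : Γ →* H) (π : G →* H) (hπ : Function.Surjective π) (l : ℕ)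
    (hl : 0 < l)
    (hc : ∀ v ∈ π.ker, ∀ g : G, g * v = v * g) (A s α : J → M) (b ι : J → G → M)
    (hA0 : ∀ j, A j ≠ 0) (hs0 : ∀ j, s j ≠ 0) (hs : ∀ j γ, aΓ γ (s j) = s j)
    (hα : ∀ j, α j ^ l = A j)
    (hb : ∀ j (γ : Γ) (g h : G), q γ = π g → b j (g * h) * s j = b j g * aΓ γ (b j h))
    (hbA : ∀ j (γ : Γ) (g : G), q γ = π g → b j g ^ l * A j = s j ^ l * aΓ γ (A j))
    (hbv : ∀ j, ∀ v ∈ π.ker, b j v = ι j v * s j)
    (hιΓ : ∀ j, ∀ v ∈ π.ker, ∀ γ, aΓ γ (ι j v) = ι j v)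
    (hinj : ∀ v ∈ π.ker, (∀ j, ι j v = 1) → v = 1)
    (hsurj : ∀ ξ : J → M, (∀ j, ξ j ^ l = 1) → ∃ v ∈ π.ker, ∀ j, ι j v = ξ j) :
    ∃ θ : Γ →* G, ∀ γ, π (θ γ) = q γ := by
  have hα0 : ∀ j, α j ≠ 0 := fun j h => hA0 j (by rw [← hα j, h, zero_pow hl.ne'])
  have hb0 : ∀ j (γ : Γ) (g : G), q γ = π g → b j g ≠ 0 := by
    intro j γ g hg h
    have h1 := hbA j γ g hg
    rw [h, zero_pow hl.ne', zero_mul] at h1
    exact mul_ne_zero (pow_ne_zero l (hs0 j))
      (fun h2 => hA0 j ((map_eq_zero_iff (aΓ γ) (aΓ γ).injective).1 h2)) h1.symm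
  have hgv : ∀ j (γ : Γ) (g : G), q γ = π g → ∀ v ∈ π.ker, b j (g * v) = b j g * ι j v := by
    intro j γ g hg v hv
    have h1 := hb j γ g v hg
    rw [hbv j v hv, map_mul, hιΓ j v hv, hs, ← mul_assoc] at h1
    exact mul_right_cancel₀ (hs0 j) h1
  have hex : ∀ γ : Γ, ∃ g : G, π g = q γ ∧ ∀ j, b j g * α j = s j * aΓ γ (α j) := by
    intro γ
    obtain ⟨g, hg⟩ := hπ (q γ)
    obtain ⟨v, hv, hvj⟩ := hsurj (fun j => aΓ γ (α j) * s j / (b j g * α j)) (by
      intro j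
      rw [div_pow, mul_pow, mul_pow, ← map_pow, hα, hbA j γ g hg.symm, mul_comm (aΓ γ (A j))]
      exact div_self (mul_ne_zero (pow_ne_zero l (hs0 j))
        (fun h2 => hA0 j ((map_eq_zero_iff (aΓ γ) (aΓ γ).injective).1 h2))))
    refine ⟨g * v, ?_, fun j => ?_⟩
    · rw [map_mul, hg, (MonoidHom.mem_ker).1 hv, mul_one]
    · rw [hgv j γ g hg.symm v hv, hvj j]
      have h1 := hb0 j γ g hg.symm
      have h2 := hα0 j
      field_simp
  have huniq : ∀ (γ : Γ) (g g' : G), π g = q γ → π g' = q γ →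
      (∀ j, b j g * α j = s j * aΓ γ (α j)) → (∀ j, b j g' * α j = s j * aΓ γ (α j)) →
      g' = g := by
    intro γ g g' hg hg' h h'
    have hv : g⁻¹ * g' ∈ π.ker := by
      rw [MonoidHom.mem_ker, map_mul, map_inv, hg, hg', inv_mul_cancel]
    have h1 : g⁻¹ * g' = 1 := by
      refine hinj _ hv fun j => ?_
      have h2 := hgv j γ g hg.symm _ hv
      rw [mul_inv_cancel_left] at h2
      have h3 := (h' j).trans (h j).symm
      rw [h2] at h3
      have h4 : b j g * ι j (g⁻¹ * g') = b j g := mul_right_cancel₀ (hα0 j) h3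
      exact mul_left_cancel₀ (hb0 j γ g hg.symm) (h4.trans (mul_one _).symm)
    rw [inv_mul_eq_one] at h1
    exact h1.symm
  choose t ht1 ht2 using hex
  refine ⟨MonoidHom.mk' t fun γ δ => ?_, ht1⟩
  refine huniq (γ * δ) (t γ * t δ) (t (γ * δ)) ?_ (ht1 _) (fun j => ?_) (ht2 _)
  · rw [map_mul, map_mul, ht1, ht1]
  · have h1 := hb j γ (t γ) (t δ) (ht1 γ).symm
    have h2 := congrArg (aΓ γ) (ht2 δ j)
    rw [map_mul, map_mul, hs] at h2
    have h3 := ht2 γ j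
    rw [map_mul, RingAut.mul_apply]
    refine mul_right_cancel₀ (hs0 j) ?_
    calc b j (t γ * t δ) * α j * s j = (b j (t γ * t δ) * s j) * α j := by ring
      _ = b j (t γ) * aΓ γ (b j (t δ)) * α j := by rw [h1]
      _ = (b j (t γ) * α j) * aΓ γ (b j (t δ)) := by ring
      _ = s j * (aΓ γ (b j (t δ)) * aΓ γ (α j)) := by rw [h3]; ring
      _ = s j * aΓ γ (aΓ δ (α j)) * s j := by rw [h2]; ring

end Pool.Agent.AB3
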