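import Pool.Agent.Lib.MP_5de024_nt.S.E.DsC
import Pool.Agent.Lib.MP_5de024_nt.S.E.MsA
import Pool.Agent.Lib.MP_5de024_nt.S.E.MsB
import Pool.Agent.Lib.MP_5de024_nt.S.E.MsC
import Pool.Agent.Lib.MP_5de024_nt.S.E.Gx
import Pool.Agent.Lib.MP_5de024_nt.S.E.Gy
import Pool.Agent.Lib.MP_5de024_nt.S.E.Th

/-!
# AB3E, CenA: lifting the geometric group
-/

set_option autoImplicit false
set_option linter.unusedSectionVars false

namespace Pool.Agent.AB3

open Pool.Agent.AB Polynomial

/-- an extension of a finite field containing the roots of unity -/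
theorem cenA_rou (k : Type) [Field k] [Finite k] (l : ℕ) (hl : l.Prime) (hlk : (l : k) ≠ 0) :
    ∃ (F : Type) (_ : Field F) (_ : Finite F) (_ : Algebra k F) (ζ : F),
      IsPrimitiveRoot ζ l := by
  have : NeZero l := ⟨hl.ne_zero⟩
  have : NeZero (l : k) := ⟨hlk⟩
  have : FiniteDimensional k (CyclotomicField l k) :=
    IsCyclotomicExtension.finiteDimensional {l} k (CyclotomicField l k)
  have : Finite (CyclotomicField l k) := Module.finite_of_finite k
  exact ⟨CyclotomicField l k, inferInstance, inferInstance, inferInstance,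
    IsCyclotomicExtension.zeta l k (CyclotomicField l k),
    IsCyclotomicExtension.zeta_spec l k (CyclotomicField l k)⟩

/-- certificates are transported by ring homomorphisms -/
theorem cenA_cert {R S : Type} [CommRing R] [CommRing S] (e : R →+* S) {n : ℕ} {u : R}
    (h : Cert n u) : Cert n (e u) := by
  obtain ⟨a0, a1, c0, c1, d0, d1, h0, h1, h2⟩ := h
  refine ⟨e a0, e a1, e c0, e c1, e d0, e d1, ?_, ?_, ?_⟩
  · rw [← map_pow, h0, map_mul]
  · rw [← map_pow, h1, map_mul]
  · rw [← map_mul, ← map_mul, ← map_add, h2, map_one]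

/-- a field over `K` whose geometric group lifts to the central extension `G` -/
theorem geo_lift (p : ℕ) [Fact p.Prime] (K : Type) [Field K] [Algebra (Fx p) K]
    [Algebra (Rx p) K] [IsScalarTower (Rx p) (Fx p) K] (hK : NiK p K) (l : ℕ) (hl : l.Prime)
    (hlp : l ≠ p) (G : Type) [Group G] [Finite G] (π : G →* Gc p K)
    (hπ : Function.Surjective π) (hV : ∀ v ∈ π.ker, v ^ l = 1)
    (hc : ∀ v ∈ π.ker, ∀ g : G, g * v = v * g) :
    ∃ (M : Type) (_ : Field M) (_ : Algebra (Fx p) M) (_ : Algebra (Rx p) M)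
      (_ : IsScalarTower (Rx p) (Fx p) M) (ρ : Gl p M →* Gl p K) (θ : Gc p M →* G),
      NiK p M ∧ Function.Surjective ρ ∧ (Gc p M).map ρ = Gc p K ∧
      (∀ σ : Gc p M, ((π (θ σ) : Gc p K) : Gl p K) = ρ σ) ∧
      ∃ ζ : M, IsPrimitiveRoot ζ l := by
  have hlc : l.Coprime p := (Nat.coprime_primes hl Fact.out).2 hlp
  have : NeZero l := ⟨hl.ne_zero⟩
  -- the model, the roots of unity
  obtain ⟨k, R, H, _, _, _, _, _, _, _, ⟨m⟩⟩ := exists_mdl p K hK
  have hlk : (l : k) ≠ 0 := by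
    intro h
    have h1 := (CharP.cast_eq_zero_iff k p l).1 h
    exact hlp ((Nat.prime_dvd_prime_iff_eq Fact.out hl).1 h1).symm
  obtain ⟨F, _, _, _, ζ, hζ⟩ := cenA_rou k l hl hlk
  have : CharP F p := charP_of_injective_algebraMap (algebraMap k F).injective p
  obtain ⟨K1, _, _, _, _, ρ1, hK1, hρ1, hGc1, m1, hj1, -⟩ :=
    mdl_bc p K hK k R H m F X (fun i => by
      rw [coeff_X]; split_ifs
      · exact one_pow _
      · exact zero_pow (Fact.out : p.Prime).ne_zero) (by rw [natDegree_X]; exact one_pos)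
      (fun F' _ _ _ _ => by rw [Polynomial.map_X]; exact m.cov.geom F')
  -- the central extension of `H`
  obtain ⟨π', hπ'⟩ : ∃ π' : G →* H, ∀ g, m.j (π' g) = π g :=
    ⟨m.j.symm.toMonoidHom.comp π, fun g => m.j.apply_symm_apply _⟩
  have hker : ∀ v, v ∈ π'.ker ↔ v ∈ π.ker := by
    intro v
    rw [MonoidHom.mem_ker, MonoidHom.mem_ker, ← hπ', map_eq_one_iff _ m.j.injective]
  have hπs : Function.Surjective π' := by
    intro h
    obtain ⟨g, hg⟩ := hπ (m.j h)
    exact ⟨g, m.j.injective (by rw [hπ', hg])⟩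
  have hV' : ∀ v ∈ π'.ker, v ^ l = 1 := fun v hv => hV v ((hker v).1 hv)
  have hc' : ∀ v ∈ π'.ker, ∀ g : G, g * v = v * g := fun v hv => hc v ((hker v).1 hv)
  obtain ⟨r, ι, hιl, hιm, hιi, hιs⟩ := exists_chars F l hl ζ hζ G π'.ker
    (fun v hv w _ => (hc' v hv w).symm) hV'
  have hι0 : ∀ j, ∀ v ∈ π'.ker, ι j v ≠ 0 := by
    intro j v hv h
    have h1 := hιl j v hv
    rw [h, zero_pow hl.ne_zero] at h1
    exact zero_ne_one h1
  obtain ⟨F2, _, _, _, A, s, b, hall⟩ := rad_finite m1.cov π' hπs l hl hV' hc' (Fin r) ι hι0 hιm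
  have : CharP F2 p := charP_of_injective_algebraMap (algebraMap F F2).injective p
  obtain ⟨K2, _, _, _, _, ρ2, hK2, hρ2, hGc2, m2, hj2, hact2⟩ :=
    mdl_bc p K1 hK1 F _ H m1 F2 X (fun i => by
      rw [coeff_X]; split_ifs
      · exact one_pow _
      · exact zero_pow (Fact.out : p.Prime).ne_zero) (by rw [natDegree_X]; exact one_pos)
      (fun F' _ _ _ _ => by rw [Polynomial.map_X]; exact m1.cov.geom F')
  -- the map to `K2`
  obtain ⟨e, he⟩ : ∃ e : Fam F F2 X (Fam k F X R) →+* K2, ∀ z, e z = (m2.e z : K2) :=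
    ⟨(algebraMap (Oc p K2) K2).comp m2.e.toRingHom, fun z => rfl⟩
  have hei : Function.Injective e := by
    intro z w h
    rw [he, he] at h
    exact m2.e.injective (Subtype.ext h)
  obtain ⟨c, hcdef⟩ : ∃ c : F2 →+* K2, ∀ a, c a = e (algebraMap F2[X] _ (C a)) :=
    ⟨(e.comp (algebraMap F2[X] _)).comp C, fun a => rfl⟩
  have hci : Function.Injective c := c.injective
  obtain ⟨M, _, _, _, _, i, ρ3, hM, hρ3, hGc3, hi, hroot⟩ := exists_root p K2 hK2 l hlc
    (c (algebraMap F F2 ζ)) (by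
      have h1 : IsPrimitiveRoot ((c.comp (algebraMap F F2)) ζ) l :=
        hζ.map_of_injective (hci.comp (algebraMap F F2).injective)
      exact h1) (Fin r) (fun j => m2.e (A j))
    (fun j h => (hall j).1 (m2.e.injective (by rw [h, map_zero])))
    (fun j => cenA_cert m2.e.toRingHom (hall j).2.2.1)
  choose α hα using hroot
  have hii : Function.Injective i := i.injective
  -- the map of the geometric groups
  have hmem : ∀ σ : Gc p M, ρ3 σ ∈ Gc p K2 := fun σ => by
    rw [← hGc3]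
    exact Subgroup.mem_map_of_mem _ σ.2
  obtain ⟨q, hq⟩ : ∃ q : Gc p M →* H, ∀ σ, ((m2.j (q σ) : Gc p K2) : Gl p K2) = ρ3 σ := by
    refine ⟨m2.j.symm.toMonoidHom.comp ((ρ3.comp (Gc p M).subtype).codRestrict (Gc p K2) hmem),
      fun σ => ?_⟩
    change ((m2.j (m2.j.symm _) : Gc p K2) : Gl p K2) = _
    rw [MulEquiv.apply_symm_apply]
    rfl
  obtain ⟨aΓ, haΓ⟩ : ∃ aΓ : Gc p M →* (M ≃+* M), ∀ σ z, aΓ σ z = (σ : Gl p M) z :=
    ⟨(MulSemiringAction.toRingAut (Gl p M) M).comp (Gc p M).subtype, fun σ z => rfl⟩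
  have haE : ∀ (σ : Gc p M) z, aΓ σ (i (e z)) =
      i (e (Bs.act (evg F F2 X) m1.cov.act (q σ) z)) := by
    intro σ z
    rw [haΓ, hi, he, he, ← hact2]
    congr 1
    rw [m2.eact, act_coe, hq]
  have haC : ∀ (σ : Gc p M) (f : F2[X]), aΓ σ (i (e (algebraMap F2[X] _ f))) =
      i (e (algebraMap F2[X] _ f)) := by
    intro σ f
    rw [haE, Bs.act_alg]
  obtain ⟨θ, hθ⟩ := theta_exists aΓ q π' hπs l hl.pos hc' (fun j => i (e (A j)))
    (fun j => i (e (algebraMap F2[X] _ (s j)))) α (fun j g => i (e (b j g)))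
    (fun j g => i (c (algebraMap F F2 (ι j g))))
    (fun j h => (hall j).1 (hei (hii (by rw [h, map_zero, map_zero]))))
    (fun j h => (hall j).2.1 (m2.cov.inj (hei (hii (by rw [h, map_zero, map_zero, map_zero])))))
    (fun j γ => haC γ _)
    (fun j => by rw [hα, he])
    (fun j γ g h hγ => by
      rw [haE, hγ, ← map_mul, ← map_mul, ← map_mul, ← map_mul, (hall j).2.2.2.1])
    (fun j γ g hγ => by
      rw [haE, hγ, ← map_pow, ← map_pow, ← map_mul, ← map_mul, ← map_pow, ← map_pow, ← map_mul,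
        ← map_mul, (hall j).2.2.2.2.2])
    (fun j v hv => by
      rw [(hall j).2.2.2.2.1 v hv, hcdef, map_mul, map_mul, map_mul])
    (fun j v hv γ => by
      rw [hcdef, haC])
    (fun v hv h => hιi v hv fun j => (algebraMap F F2).injective (hci (hii (by
      rw [map_one, map_one, map_one]; exact h j))))
    (fun ξ hξ => by
      have hζM : IsPrimitiveRoot (i (c (algebraMap F F2 ζ))) l := by
        have h1 : IsPrimitiveRoot (((i : K2 →+* M).comp (c.comp (algebraMap F F2))) ζ) l :=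
          hζ.map_of_injective (hii.comp (hci.comp (algebraMap F F2).injective))
        exact h1
      choose n hn1 hn2 using fun j => hζM.eq_pow_of_pow_eq_one (hξ j)
      obtain ⟨v, hv, h⟩ := hιs (fun j => ζ ^ n j) (fun j => by
        rw [← pow_mul, mul_comm, pow_mul, hζ.pow_eq_one, one_pow])
      refine ⟨v, hv, fun j => ?_⟩
      rw [h j, map_pow, map_pow, map_pow, hn2])
  refine ⟨M, inferInstance, inferInstance, inferInstance, inferInstance,
    ρ1.comp (ρ2.comp ρ3), θ, hM, hρ1.comp (hρ2.comp hρ3), ?_, ?_, ?_⟩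
  · rw [← Subgroup.map_map, ← Subgroup.map_map, hGc3, hGc2, hGc1]
  · intro σ
    rw [← hπ', hθ, ← hj1, ← hj2, hq]
    rfl
  · exact ⟨i (c (algebraMap F F2 ζ)), by
      have h1 : IsPrimitiveRoot (((i : K2 →+* M).comp (c.comp (algebraMap F F2))) ζ) l :=
        hζ.map_of_injective (hii.comp (hci.comp (algebraMap F F2).injective))
      exact h1⟩

end Pool.Agent.AB3
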