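import Pool.Agent.Lib.MP_5de024_nt.S.FinX.Ref
import Pool.Agent.Lib.MP_5de024_nt.S.E.CenA

/-!
# AB3E, Cen: central kernels of exponent `l`
-/

set_option autoImplicit false
set_option linter.unusedSectionVars false

namespace Pool.Agent.AB3

open Pool.Agent.AB Polynomial

/-- the geometric part is normal -/
theorem cen_gc_normal (p : ℕ) [Fact p.Prime] (K : Type) [Field K] [Algebra (Fx p) K] :
    (Gc p K).Normal := by
  constructor
  intro σ hσ τ c hc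
  have h1 : IsCst p (τ⁻¹ c) := IsCst.map (τ⁻¹ : Gl p K).toAlgHom.toRingHom hc
  have h2 := hσ (τ⁻¹ c) h1
  rw [AlgEquiv.mul_apply, AlgEquiv.mul_apply, h2, AlgEquiv.aut_inv,
    AlgEquiv.apply_symm_apply]

/-- a homomorphism on a group generated by a normal subgroup and an element is determined -/
theorem cen_ext {Γ G Q : Type} [Group Γ] [Group G] [Group Q] (N : Subgroup Γ) (γ : Γ)
    (hgen : ∀ x : Γ, ∃ i : ℕ, x * γ ^ i ∈ N) (f : Γ →* Q) (g : Γ →* Q)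
    (hN : ∀ x ∈ N, f x = g x) (hγ : f γ = g γ) (x : Γ) : f x = g x := by
  obtain ⟨i, hi⟩ := hgen x
  have h1 := hN _ hi
  rw [map_mul, map_mul, map_pow, map_pow, hγ] at h1
  exact mul_right_cancel h1

/-- central kernels of exponent `l` -/
theorem rf_central_l (p : ℕ) [Fact p.Prime] (l : ℕ) (hl : l.Prime) (hlp : l ≠ p) (G : Type)
    [Group G] [Finite G] (V : Subgroup G) [V.Normal] (hV : ∀ v ∈ V, v ^ l = 1)
    (hle : V ≤ pg p G) (hc : ∀ v ∈ V, ∀ h ∈ pg p G, v * h = h * v)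
    (h : RF p (G ⧸ V) (pg p (G ⧸ V))) : RF p G (pg p G) := by
  classical
  have hp : p.Prime := Fact.out
  obtain ⟨K, _, _, _, _, Φ, hK, hΦ, hGc⟩ := h
  have hfd := hK.1
  have hmk : Function.Surjective (QuotientGroup.mk' V) := QuotientGroup.mk'_surjective V
  have hpg : (pg p G).map (QuotientGroup.mk' V) = pg p (G ⧸ V) := pg_map p hp _ hmk
  have hkV : ∀ x : G, QuotientGroup.mk' V x = 1 ↔ x ∈ V := fun x =>
    QuotientGroup.eq_one_iff x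
  -- the fibre product
  let G' : Subgroup (G × Gc p K) :=
    { carrier := {x | x.1 ∈ pg p G ∧ QuotientGroup.mk' V x.1 = Φ (x.2 : Gl p K)}
      mul_mem' := by
        rintro a b ⟨ha1, ha2⟩ ⟨hb1, hb2⟩
        refine ⟨(pg p G).mul_mem ha1 hb1, ?_⟩
        rw [Prod.fst_mul, Prod.snd_mul, map_mul, ha2, hb2, Subgroup.coe_mul, map_mul]
      one_mem' := by
        refine ⟨(pg p G).one_mem, ?_⟩
        rw [Prod.fst_one, Prod.snd_one, map_one, Subgroup.coe_one, map_one]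
      inv_mem' := by
        rintro a ⟨ha1, ha2⟩
        refine ⟨(pg p G).inv_mem ha1, ?_⟩
        rw [Prod.fst_inv, Prod.snd_inv, map_inv, ha2, Subgroup.coe_inv, map_inv] }
  have : Finite (Gl p K) := inferInstance
  have : Finite G' := inferInstance
  let π : G' →* Gc p K := (MonoidHom.snd G (Gc p K)).comp G'.subtype
  have hπ : Function.Surjective π := by
    intro σ
    have h1 : Φ (σ : Gl p K) ∈ (pg p G).map (QuotientGroup.mk' V) := by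
      rw [hpg, ← hGc]
      exact ⟨σ, σ.2, rfl⟩
    obtain ⟨x, hx, hxσ⟩ := h1
    exact ⟨⟨(x, σ), hx, hxσ⟩, rfl⟩
  have hπk : ∀ v ∈ π.ker, (v : G × Gc p K).1 ∈ V ∧ (v : G × Gc p K).2 = 1 := by
    intro v hv
    have h1 : (v : G × Gc p K).2 = 1 := hv
    refine ⟨?_, h1⟩
    have h2 : QuotientGroup.mk' V (v : G × Gc p K).1 = Φ ((v : G × Gc p K).2 : Gl p K) :=
      v.2.2
    rw [h1, Subgroup.coe_one, map_one] at h2
    exact (hkV _).1 h2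
  obtain ⟨M, _, _, _, _, ρ, θ', hM, hρ, hρc, hθ', ζ, hζ⟩ :=
    geo_lift p K hK l hl hlp G' π hπ
      (by
        intro v hv
        obtain ⟨h1, h2⟩ := hπk v hv
        apply Subtype.ext
        rw [Subgroup.coe_pow, Subgroup.coe_one]
        apply Prod.ext
        · rw [Prod.pow_fst, hV _ h1, Prod.fst_one]
        · rw [Prod.pow_snd, h2, one_pow, Prod.snd_one])
      (by
        intro v hv g
        obtain ⟨h1, h2⟩ := hπk v hv
        apply Subtype.ext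
        rw [Subgroup.coe_mul, Subgroup.coe_mul]
        apply Prod.ext
        · rw [Prod.fst_mul, Prod.fst_mul]
          exact (hc _ h1 _ g.2.1).symm
        · rw [Prod.snd_mul, Prod.snd_mul, h2, one_mul, mul_one])
  let θ : Gc p M →* G := (MonoidHom.fst G (Gc p K)).comp (G'.subtype.comp θ')
  have hθH : ∀ σ, θ σ ∈ pg p G := fun σ => (θ' σ).2.1
  have hθ : ∀ σ : Gc p M, QuotientGroup.mk' V (θ σ) = (Φ.comp ρ) (σ : Gl p M) := by
    intro σ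
    have h1 : QuotientGroup.mk' V (θ σ) = Φ ((π (θ' σ) : Gc p K) : Gl p K) := (θ' σ).2.2
    rw [h1, hθ' σ]
    rfl
  obtain ⟨M₁, _, _, _, _, ρ₁, m, γ, hM₁, hρ₁, hρ₁c, hm, hgen, hγi, hγm⟩ :=
    exists_cext p M hM l hl.pos
  obtain ⟨g, hg⟩ := hmk ((Φ.comp ρ) (ρ₁ γ))
  have hNM : (Gc p M).Normal := cen_gc_normal p M
  have hNM₁ : (Gc p M₁).Normal := cen_gc_normal p M₁
  have hVV : ∀ v ∈ V, ∀ w ∈ V, v * w = w * v := fun v hv w hw => hc v hv w (hle hw)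
  have huniq : ∀ χ : Gc p M →* V, χ = 1 := by
    let _ : CommGroup V :=
      { (inferInstance : Group V) with
        mul_comm := fun a b => Subtype.ext (hVV a a.2 b b.2) }
    intro χ
    exact hom_gc p M hM l hl hlp ζ hζ V (fun w => Subtype.ext (hV w w.2)) χ
  have hconj : ∀ σ : Gc p M, θ ⟨ρ₁ γ * σ * (ρ₁ γ)⁻¹, hNM.conj_mem σ σ.2 (ρ₁ γ)⟩ =
      g * θ σ * g⁻¹ :=
    fun σ => conj_eq (Gc p M) V (pg p G) hc hVV (Φ.comp ρ) θ hθH hθ huniq (ρ₁ γ) g hg σ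
  let r₁ : Gc p M₁ →* Gc p M := (ρ₁.comp (Gc p M₁).subtype).codRestrict (Gc p M)
    (fun x => hρ₁c.le ⟨x, x.2, rfl⟩)
  let θ₁ : Gc p M₁ →* G := θ.comp r₁
  have hγD : γ ^ (m * l) ∈ Gc p M₁ := (hγi _).2 dvd_rfl
  have hθγ : θ₁ ⟨γ ^ (m * l), hγD⟩ = g ^ (m * l) := by
    have h1 : r₁ ⟨γ ^ (m * l), hγD⟩ = (⟨ρ₁ γ ^ m, hγm⟩ : Gc p M) ^ l := by
      apply Subtype.ext
      rw [Subgroup.coe_pow]
      show ρ₁ (γ ^ (m * l)) = (ρ₁ γ ^ m) ^ l
      rw [map_pow, pow_mul]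
    have h2 : θ₁ ⟨γ ^ (m * l), hγD⟩ = θ ⟨ρ₁ γ ^ m, hγm⟩ ^ l := by
      show θ (r₁ ⟨γ ^ (m * l), hγD⟩) = _
      rw [h1, map_pow]
    rw [h2]
    obtain ⟨t, ht⟩ : ∃ t, t = θ ⟨ρ₁ γ ^ m, hγm⟩ := ⟨_, rfl⟩
    rw [← ht]
    have htpg : t ∈ pg p G := ht ▸ hθH _
    have h3 : QuotientGroup.mk' V t = QuotientGroup.mk' V (g ^ m) := by
      rw [ht, hθ, map_pow (QuotientGroup.mk' V), hg]
      exact map_pow _ _ _
    have h4 : (g ^ m)⁻¹ * t ∈ V := by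
      rw [← hkV, map_mul, map_inv, h3, inv_mul_cancel]
    obtain ⟨v, hv⟩ : ∃ v, v = (g ^ m)⁻¹ * t := ⟨_, rfl⟩
    rw [← hv] at h4
    have h5 : g ^ m = t * v⁻¹ := by rw [hv]; group
    have h7 : Commute t v := (hc v h4 t htpg).symm
    have h6 : Commute t v⁻¹ := h7.inv_right
    rw [pow_mul, h5, h6.mul_pow, inv_pow, hV v h4, inv_one, mul_one]
  obtain ⟨ψ, hψN, hψγ⟩ := ext_hom (Gc p M₁) θ₁ γ g (m * l) (Nat.mul_pos hm hl.pos) hgen
    (fun i hi => (hγi i).1 hi) hγD hθγ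
    (by
      intro σ
      have h1 : r₁ ⟨γ * σ * γ⁻¹, hNM₁.conj_mem σ σ.2 γ⟩ =
          ⟨ρ₁ γ * (r₁ σ : Gc p M) * (ρ₁ γ)⁻¹, hNM.conj_mem _ (r₁ σ).2 (ρ₁ γ)⟩ := by
        apply Subtype.ext
        show ρ₁ (γ * σ * γ⁻¹) = ρ₁ γ * ρ₁ σ * (ρ₁ γ)⁻¹
        rw [map_mul, map_mul, map_inv]
      show θ (r₁ ⟨γ * σ * γ⁻¹, hNM₁.conj_mem σ σ.2 γ⟩) = g * θ (r₁ σ) * g⁻¹
      rw [h1]
      exact hconj (r₁ σ))
  have hψ : ∀ σ : Gl p M₁, QuotientGroup.mk' V (ψ σ) = Φ (ρ (ρ₁ σ)) := by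
    intro σ
    refine cen_ext (G := G) (Gc p M₁) γ hgen ((QuotientGroup.mk' V).comp ψ)
      (Φ.comp (ρ.comp ρ₁)) ?_ ?_ σ
    · intro x hx
      show QuotientGroup.mk' V (ψ x) = Φ (ρ (ρ₁ x))
      have h1 : ψ x = θ (r₁ ⟨x, hx⟩) := hψN ⟨x, hx⟩
      rw [h1, hθ]
      rfl
    · show QuotientGroup.mk' V (ψ γ) = Φ (ρ (ρ₁ γ))
      rw [hψγ, hg]
      rfl
  have hH₁le : (Gc p M₁).map ψ ≤ pg p G := by
    rintro _ ⟨x, hx, rfl⟩
    have h1 : ψ x = θ (r₁ ⟨x, hx⟩) := hψN ⟨x, hx⟩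
    rw [h1]
    exact hθH _
  have hpgle : pg p G ≤ (Gc p M₁).map ψ := by
    have hdec : ∀ x ∈ pg p G, ∃ y ∈ (Gc p M₁).map ψ, ∃ v ∈ V, x = y * v := by
      intro x hx
      have h1 : QuotientGroup.mk' V x ∈ (Gc p K).map Φ := by
        rw [hGc, ← hpg]
        exact ⟨x, hx, rfl⟩
      obtain ⟨σ, hσ, hσx⟩ := h1
      have h2 : σ ∈ (Gc p M).map ρ := by
        rw [hρc]
        exact hσ
      obtain ⟨τ, hτ, rfl⟩ := h2
      have h3 : τ ∈ (Gc p M₁).map ρ₁ := by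
        rw [hρ₁c]
        exact hτ
      obtain ⟨n, hn, rfl⟩ := h3
      refine ⟨ψ n, ⟨n, hn, rfl⟩, (ψ n)⁻¹ * x, ?_, by group⟩
      rw [← hkV, map_mul, map_inv, hψ n, ← hσx, inv_mul_cancel]
    conv_lhs => unfold pg
    rw [Subgroup.closure_le]
    rintro x ⟨n, hn⟩
    have hx : x ∈ pg p G := mem_pg p G hn
    obtain ⟨y, hy, v, hv, rfl⟩ := hdec x hx
    have h1 : Commute y v := (hc v hv y (hH₁le hy)).symm
    have h2 : v ^ (p ^ n) ∈ (Gc p M₁).map ψ := by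
      rw [h1.mul_pow] at hn
      rw [← inv_eq_of_mul_eq_one_right hn]
      exact Subgroup.inv_mem _ (Subgroup.pow_mem _ hy _)
    have h3 : v ^ l ∈ (Gc p M₁).map ψ := by
      rw [hV v hv]
      exact Subgroup.one_mem _
    have h4 : Nat.Coprime (p ^ n) l :=
      Nat.Coprime.pow_left n ((Nat.coprime_primes hp hl).2 (Ne.symm hlp))
    exact Subgroup.mul_mem _ hy (mem_of_coprime h4 h2 h3)
  have hH₁ : (Gc p M₁).map ψ = pg p G := le_antisymm hH₁le hpgle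
  have hψs : Function.Surjective ψ := by
    intro x
    obtain ⟨q1, hq1⟩ := hΦ (QuotientGroup.mk' V x)
    obtain ⟨q2, rfl⟩ := hρ q1
    obtain ⟨q3, rfl⟩ := hρ₁ q2
    have h1 : (ψ q3)⁻¹ * x ∈ V := by
      rw [← hkV, map_mul, map_inv, hψ q3, hq1, inv_mul_cancel]
    have h2 : (ψ q3)⁻¹ * x ∈ (Gc p M₁).map ψ := by
      rw [hH₁]
      exact hle h1
    obtain ⟨n, -, hn⟩ := h2
    refine ⟨q3 * n, ?_⟩
    rw [map_mul, hn]
    group
  exact ⟨M₁, inferInstance, inferInstance, inferInstance, inferInstance, ψ, hM₁, hψs, hH₁⟩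

end Pool.Agent.AB3
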