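import Pool.Agent.Lib.MP_5de024_nt.S.E.Cen

/-!
# AB3E, CenI: central kernels of order prime to `p`
-/

set_option autoImplicit false
set_option linter.unusedSectionVars false

namespace Pool.Agent.AB3

open Pool.Agent.AB

/-- the form for surjections -/
theorem ceni_aux (p : ℕ) [Fact p.Prime] : ∀ (n : ℕ) (E Q : Type) [Group E] [Finite E] [Group Q]
    (f : E →* Q), Function.Surjective f → Nat.card f.ker = n → (Nat.card f.ker).Coprime p →
    f.ker ≤ pg p E → (∀ v ∈ f.ker, ∀ h ∈ pg p E, v * h = h * v) →
    RF p Q (pg p Q) → RF p E (pg p E) := by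
  classical
  have hp : p.Prime := Fact.out
  intro n
  induction n using Nat.strong_induction_on with
  | _ n ih =>
    intro E Q _ _ _ f hf hn hcop hle hc hQ
    by_cases hbot : f.ker = ⊥
    · have hinj : Function.Injective f := (MonoidHom.ker_eq_bot_iff f).1 hbot
      let e : E ≃* Q := MulEquiv.ofBijective f ⟨hinj, hf⟩
      have : Finite Q := Finite.of_surjective f hf
      exact rf_congr p e.symm hQ (pg_map p hp _ e.symm.surjective)
    · have hcard1 : Nat.card f.ker ≠ 1 := by
        intro h1
        exact hbot (Subgroup.card_eq_one.1 h1)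
      obtain ⟨l, hl, hld⟩ := Nat.exists_prime_and_dvd hcard1
      have hlp : l ≠ p := by
        rintro rfl
        exact (Nat.Prime.coprime_iff_not_dvd hl).1 hcop.symm hld
      have : Fact l.Prime := ⟨hl⟩
      obtain ⟨⟨v0, hv0⟩, hv0l⟩ := exists_prime_orderOf_dvd_card' l hld
      let V : Subgroup E :=
        { carrier := {v | v ∈ f.ker ∧ v ^ l = 1}
          mul_mem' := by
            rintro a b ⟨ha1, ha2⟩ ⟨hb1, hb2⟩
            refine ⟨f.ker.mul_mem ha1 hb1, ?_⟩
            have h1 : Commute a b := hc a ha1 b (hle hb1)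
            rw [h1.mul_pow, ha2, hb2, one_mul]
          one_mem' := ⟨f.ker.one_mem, one_pow _⟩
          inv_mem' := by
            rintro a ⟨ha1, ha2⟩
            exact ⟨f.ker.inv_mem ha1, by rw [inv_pow, ha2, inv_one]⟩ }
      have hVn : V.Normal := by
        constructor
        rintro v ⟨hv1, hv2⟩ g
        exact ⟨f.normal_ker.conj_mem v hv1 g, by rw [conj_pow, hv2, mul_one, mul_inv_cancel]⟩
      have hVk : V ≤ f.ker := fun v hv => hv.1
      have hlift : ∀ x ∈ V, f x = 1 := fun x hx => hVk hx
      let g : E ⧸ V →* Q := QuotientGroup.lift V f hlift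
      have hg : ∀ x : E, g (QuotientGroup.mk' V x) = f x := fun x => rfl
      have hgs : Function.Surjective g := by
        intro y
        obtain ⟨x, rfl⟩ := hf y
        exact ⟨QuotientGroup.mk' V x, rfl⟩
      have hker : g.ker = f.ker.map (QuotientGroup.mk' V) := by
        ext y
        obtain ⟨x, rfl⟩ := QuotientGroup.mk'_surjective V y
        rw [MonoidHom.mem_ker, hg]
        constructor
        · exact fun hx => ⟨x, hx, rfl⟩
        · rintro ⟨z, hz, hzx⟩
          rw [← hg x, ← hzx, hg]
          exact hz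
      let h : f.ker →* g.ker := ((QuotientGroup.mk' V).comp f.ker.subtype).codRestrict g.ker
        (fun x => x.2)
      have hhs : Function.Surjective h := by
        rintro ⟨y, hy⟩
        obtain ⟨x, hx, hxy⟩ := hker.le hy
        exact ⟨⟨x, hx⟩, Subtype.ext hxy⟩
      have hcd : Nat.card f.ker = Nat.card h.ker * Nat.card g.ker := by
        rw [← Subgroup.card_mul_index h.ker, Subgroup.index_ker,
          MonoidHom.range_eq_top.2 hhs, Subgroup.card_top]
      have hcard : Nat.card g.ker < n := by
        rw [← hn]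
        have h2 : 1 < Nat.card h.ker := by
          rw [Finite.one_lt_card_iff_nontrivial]
          have hv0l' : v0 ^ l = 1 := by
            have h5 : (⟨v0, hv0⟩ : f.ker) ^ l = 1 := by
              rw [← hv0l]
              exact pow_orderOf_eq_one _
            exact congrArg Subtype.val h5
          refine ⟨⟨⟨⟨v0, hv0⟩, ?_⟩, 1, ?_⟩⟩
          · rw [MonoidHom.mem_ker]
            apply Subtype.ext
            exact (QuotientGroup.eq_one_iff v0).2 ⟨hv0, hv0l'⟩
          · intro h3
            have h4 : (⟨v0, hv0⟩ : f.ker) = 1 := congrArg Subtype.val h3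
            rw [h4, orderOf_one] at hv0l
            exact hl.one_lt.ne hv0l
        have h3 : 0 < Nat.card g.ker := Nat.card_pos
        rw [hcd]
        exact lt_mul_of_one_lt_left h3 h2
      have hmk : Function.Surjective (QuotientGroup.mk' V) := QuotientGroup.mk'_surjective V
      have hpg : (pg p E).map (QuotientGroup.mk' V) = pg p (E ⧸ V) := pg_map p hp _ hmk
      have hq : RF p (E ⧸ V) (pg p (E ⧸ V)) := by
        refine ih _ hcard (E ⧸ V) Q g hgs rfl ?_ ?_ ?_ hQ
        · rw [hcd] at hcop
          exact Nat.Coprime.coprime_mul_left hcop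
        · rw [hker, ← hpg]
          exact Subgroup.map_mono hle
        · rw [hker, ← hpg]
          rintro _ ⟨v, hv, rfl⟩ _ ⟨x, hx, rfl⟩
          rw [← map_mul, hc v hv x hx, map_mul]
      exact rf_central_l p l hl hlp E V (fun v hv => hv.2) (hVk.trans hle)
        (fun v hv x hx => hc v (hVk hv) x hx) hq

theorem rf_central (p : ℕ) [Fact p.Prime] (G : Type) [Group G] [Finite G] (V : Subgroup G)
    [V.Normal] (hV : (Nat.card V).Coprime p) (hle : V ≤ pg p G)
    (hc : ∀ v ∈ V, ∀ h ∈ pg p G, v * h = h * v)
    (h : RF p (G ⧸ V) (pg p (G ⧸ V))) : RF p G (pg p G) := by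
  have hk : (QuotientGroup.mk' V).ker = V := QuotientGroup.ker_mk' V
  refine ceni_aux p _ G (G ⧸ V) (QuotientGroup.mk' V) (QuotientGroup.mk'_surjective V) rfl
    ?_ ?_ ?_ h
  · rw [hk]
    exact hV
  · rw [hk]
    exact hle
  · rw [hk]
    exact hc

end Pool.Agent.AB3
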