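import Pool.Agent.Lib.MP_5de024_nt.S.Defs

/-!
# Definitions for the central layers (AB3E)
-/

set_option autoImplicit false
set_option linter.unusedSectionVars false

namespace Pool.Agent.AB3

open Pool.Agent.AB Polynomial

/-- the finite group `Q` acts faithfully on the field `M` with fixed field the fractions of
`k[X]` -/
structure FrA (k M Q : Type) [Field k] [Field M] [Algebra k[X] M] [Group Q]
    (ac : Q →* (M ≃ₐ[k[X]] M)) : Prop where
  inj : Function.Injective (algebraMap k[X] M)
  faith : Function.Injective ac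
  fixed : ∀ z : M, (∀ g, ac g z = z) →
    ∃ a b : k[X], b ≠ 0 ∧ algebraMap k[X] M b * z = algebraMap k[X] M a

/-- crossed homomorphisms on the subgroup `A` with nonzero values -/
def Xh {k M Q G : Type} [Field k] [Field M] [Algebra k[X] M] [Group Q] [Group G]
    (ac : Q →* (M ≃ₐ[k[X]] M)) (π : G →* Q) (A : Subgroup G) (β : G → M) : Prop :=
  (∀ a ∈ A, β a ≠ 0) ∧ ∀ a ∈ A, ∀ b ∈ A, β (a * b) = β a * ac (π a) (β b)

end Pool.Agent.AB3
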