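import Pool.Agent.Lib.MP_5de024_nt.S.E.Def
import Pool.Agent.Lib.MP_5de024_nt.S.GeoB

/-!
# AB3E, DsA: the field of fractions of a cover
-/

set_option autoImplicit false
set_option linter.unusedSectionVars false

namespace Pool.Agent.AB3

open Polynomial

/-- two automorphisms of the field of fractions which agree on `R` are equal -/
private theorem DsA_ext {k R : Type} [Field k] [CommRing R] [IsDomain R] [Algebra k[X] R]
    {f g : FractionRing R ≃ₐ[k[X]] FractionRing R}
    (h : ∀ r : R, f (algebraMap R (FractionRing R) r) = g (algebraMap R (FractionRing R) r)) :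
    f = g := by
  ext z
  obtain ⟨a, b, -, rfl⟩ := IsFractionRing.div_surjective R z
  rw [map_div₀, map_div₀, h, h]

/-- the action on the field of fractions -/
theorem cov_frac {k R H : Type} [Field k] [CommRing R] [IsDomain R] [Algebra k[X] R] [Group H]
    [Finite H] (C : Cov k R H) :
    ∃ ac : H →* (FractionRing R ≃ₐ[k[X]] FractionRing R),
      (∀ h r, ac h (algebraMap R (FractionRing R) r) =
        algebraMap R (FractionRing R) (C.act h r)) ∧ FrA k (FractionRing R) H ac := by
  classical
  have hinj : Function.Injective (algebraMap R (FractionRing R)) :=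
    IsFractionRing.injective R (FractionRing R)
  let F : H → (FractionRing R ≃ₐ[k[X]] FractionRing R) := fun h =>
    IsFractionRing.algEquivOfAlgEquiv (C.act h)
  have hF : ∀ h r, F h (algebraMap R (FractionRing R) r) =
      algebraMap R (FractionRing R) (C.act h r) := fun h r =>
    IsFractionRing.algEquivOfAlgEquiv_algebraMap (C.act h) r
  let ac : H →* (FractionRing R ≃ₐ[k[X]] FractionRing R) :=
    { toFun := F
      map_one' := by
        apply DsA_ext
        intro r
        rw [hF, map_one]
        rfl
      map_mul' := by
        intro x y
        apply DsA_ext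
        intro r
        rw [hF, AlgEquiv.mul_apply, hF, hF, map_mul]
        rfl }
  have hac : ∀ h r, ac h (algebraMap R (FractionRing R) r) =
      algebraMap R (FractionRing R) (C.act h r) := hF
  refine ⟨ac, hac, ?_, ?_, ?_⟩
  · have e : (algebraMap k[X] (FractionRing R) : k[X] → FractionRing R) =
        (algebraMap R (FractionRing R)) ∘ (algebraMap k[X] R) := by
      funext f
      exact IsScalarTower.algebraMap_apply k[X] R (FractionRing R) f
    rw [e]
    exact hinj.comp C.inj
  · rw [injective_iff_map_eq_one]
    intro h hh
    by_contra hne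
    obtain ⟨m, x, y, hxy⟩ := C.coord
    have h1 := (hxy 1).1 rfl
    have h2 := (hxy h).2 hne
    have h3 : ∀ r : R, C.act h r = r := by
      intro r
      apply hinj
      rw [← hac, hh]
      rfl
    have h4 : ∀ r : R, C.act (1 : H) r = r := by
      intro r
      rw [map_one]
      rfl
    simp only [h3] at h2
    simp only [h4] at h1
    rw [h1] at h2
    exact one_ne_zero h2
  · intro z hz
    have : Fintype H := Fintype.ofFinite H
    obtain ⟨a, b, hb, rfl⟩ := IsFractionRing.div_surjective R z
    have hb0 : b ≠ 0 := nonZeroDivisors.ne_zero hb
    set n : R := ∏ g : H, C.act g b with hn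
    set c : R := ∏ g ∈ Finset.univ.erase (1 : H), C.act g b with hc
    have hnc : n = b * c := by
      rw [hn, hc, ← Finset.mul_prod_erase Finset.univ (fun g => C.act g b)
        (Finset.mem_univ (1 : H)), map_one]
      rfl
    have hn0 : n ≠ 0 := by
      rw [hn, Finset.prod_ne_zero_iff]
      intro g _ h0
      exact hb0 ((map_eq_zero_iff _ (C.act g).injective).1 h0)
    have hnf : ∀ h, C.act h n = n := by
      intro h
      rw [hn, map_prod]
      have e : ∀ g : H, C.act h (C.act g b) = C.act (h * g) b := by
        intro g
        rw [map_mul]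
        rfl
      simp only [e]
      exact Fintype.prod_equiv (Equiv.mulLeft h) _ _ (fun g => rfl)
    obtain ⟨q, hq⟩ := C.fixed n hnf
    have hz2 : algebraMap R (FractionRing R) n *
        (algebraMap R (FractionRing R) a / algebraMap R (FractionRing R) b) =
        algebraMap R (FractionRing R) (a * c) := by
      have hb1 : algebraMap R (FractionRing R) b ≠ 0 := by
        intro h0
        exact hb0 (hinj (h0.trans (map_zero _).symm))
      rw [hnc, map_mul, map_mul]
      field_simp
    have haf : ∀ h, C.act h (a * c) = a * c := by
      intro h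
      apply hinj
      rw [← hac, ← hz2, map_mul, hz, hac, hnf]
    obtain ⟨p, hp⟩ := C.fixed (a * c) haf
    refine ⟨p, q, ?_, ?_⟩
    · intro h0
      rw [h0, map_zero] at hq
      exact hn0 hq.symm
    · rw [IsScalarTower.algebraMap_apply k[X] R (FractionRing R),
        IsScalarTower.algebraMap_apply k[X] R (FractionRing R), hq, hp, hz2]

end Pool.Agent.AB3
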