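import Pool.Agent.Lib.MP_5de024_nt.S.GeoB
import Pool.Agent.Lib.MP_5de024_nt.S.PatX.ValA

/-!
# AB3E, DsI: ideals
-/

set_option autoImplicit false
set_option linter.unusedSectionVars false

namespace Pool.Agent.AB3

open Polynomial UniqueFactorizationMonoid

section val

variable {S : Type} [CommRing S] [IsDedekindDomain S]

open Classical in
/-- the multiplicity of the prime `Q` in the ideal of `a` -/
noncomputable def DsI_v (Q : Ideal S) (a : S) : ℕ :=
  Multiset.count Q (normalizedFactors (Ideal.span {a}))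

theorem DsI_v_eq (Q : Ideal S) [Q.IsPrime] (a : S) (n : ℕ) (h1 : a ∈ Q ^ n)
    (h2 : a ∉ Q ^ (n + 1)) : DsI_v Q a = n := by
  classical
  have h3 := Ideal.count_normalizedFactors_eq (p := Q) (x := Ideal.span {a}) (n := n)
    ((Ideal.span_singleton_le_iff_mem _).2 h1)
    (fun h => h2 ((Ideal.span_singleton_le_iff_mem _).1 h))
  unfold DsI_v
  rw [← h3]

theorem DsI_v_mul (Q : Ideal S) (a b : S) (ha : a ≠ 0) (hb : b ≠ 0) :
    DsI_v Q (a * b) = DsI_v Q a + DsI_v Q b := by
  have ha' : (Ideal.span {a} : Ideal S) ≠ 0 := by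
    rw [Ne, Ideal.zero_eq_bot, Ideal.span_singleton_eq_bot]
    exact ha
  have hb' : (Ideal.span {b} : Ideal S) ≠ 0 := by
    rw [Ne, Ideal.zero_eq_bot, Ideal.span_singleton_eq_bot]
    exact hb
  unfold DsI_v
  rw [← Ideal.span_singleton_mul_span_singleton, normalizedFactors_mul ha' hb',
    Multiset.count_add]

theorem DsI_v_pow (Q : Ideal S) (a : S) (n : ℕ) :
    DsI_v Q (a ^ n) = n * DsI_v Q a := by
  unfold DsI_v
  rw [← Ideal.span_singleton_pow, normalizedFactors_pow, Multiset.count_nsmul]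

theorem DsI_v_spec (Q : Ideal S) [hQ : Q.IsPrime] (hQ0 : Q ≠ ⊥) (a : S) (ha : a ≠ 0) :
    a ∈ Q ^ (DsI_v Q a) ∧ a ∉ Q ^ (DsI_v Q a + 1) := by
  classical
  have ha' : (Ideal.span {a} : Ideal S) ≠ 0 := by
    rw [Ne, Ideal.zero_eq_bot, Ideal.span_singleton_eq_bot]
    exact ha
  have hirr : Irreducible Q := (Ideal.prime_of_isPrime hQ0 hQ).irreducible
  have h1 := emultiplicity_eq_count_normalizedFactors hirr ha'
  rw [normalize_eq] at h1
  have h2 : emultiplicity Q (Ideal.span {a}) = ((DsI_v Q a : ℕ) : ℕ∞) := by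
    rw [h1]
    unfold DsI_v
    rfl
  rw [emultiplicity_eq_coe] at h2
  rw [Ideal.dvd_iff_le, Ideal.dvd_iff_le, Ideal.span_singleton_le_iff_mem,
    Ideal.span_singleton_le_iff_mem] at h2
  exact h2

/-- if all multiplicities are divisible by `l` there is a certificate -/
theorem DsI_cert (l : ℕ) (hl : 0 < l) (a : S) (ha : a ≠ 0)
    (h : ∀ Q : Ideal S, Q.IsPrime → Q ≠ ⊥ → l ∣ DsI_v Q a) : Cert l a := by
  classical
  have ha' : (Ideal.span {a} : Ideal S) ≠ 0 := by
    rw [Ne, Ideal.zero_eq_bot, Ideal.span_singleton_eq_bot]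
    exact ha
  obtain ⟨u, hu⟩ := Multiset.exists_smul_of_dvd_count
    (normalizedFactors (Ideal.span {a} : Ideal S)) (k := l) (by
      intro Q hQ
      have hQp := prime_of_normalized_factor Q hQ
      have h1 := h Q (Ideal.isPrime_of_prime hQp) hQp.ne_zero
      unfold DsI_v at h1
      exact h1)
  refine cert_of_pow l hl a ha u.prod ?_
  rw [← Multiset.prod_nsmul, ← hu]
  exact Ideal.prod_normalizedFactors_eq_self ha'

theorem DsI_finite (l : ℕ) (a : S) :
    {Q : Ideal S | Q.IsPrime ∧ Q ≠ ⊥ ∧ ¬ l ∣ DsI_v Q a}.Finite := by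
  classical
  refine Set.Finite.subset (normalizedFactors (Ideal.span {a} : Ideal S)).toFinset.finite_toSet ?_
  rintro Q ⟨-, -, h⟩
  rw [Finset.mem_coe, Multiset.mem_toFinset]
  by_contra h1
  apply h
  have h2 : DsI_v Q a = 0 := by
    unfold DsI_v
    exact Multiset.count_eq_zero_of_notMem h1
  rw [h2]
  exact dvd_zero l

end val

section cov

variable {k R H : Type} [Field k] [CommRing R] [Algebra k[X] R] [Group H] [Finite H]

/-- contraction of a principal ideal -/
theorem DsI_dvd (C : Cov k R H) {g a : k[X]} (hg : g ≠ 0)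
    (h : algebraMap k[X] R g ∣ algebraMap k[X] R a) : g ∣ a := by
  have hdom : IsDomain R := cov_domain C
  have hs0 : algebraMap k[X] R g ≠ 0 := fun h0 => hg (C.inj (h0.trans (map_zero _).symm))
  obtain ⟨w, hw⟩ := h
  have hfix : ∀ σ, C.act σ w = w := by
    intro σ
    have h1 := congrArg (C.act σ) hw
    rw [map_mul, AlgEquiv.commutes, AlgEquiv.commutes, hw] at h1
    exact (mul_left_cancel₀ hs0 h1).symm
  obtain ⟨b, hb⟩ := C.fixed w hfix
  refine ⟨b, C.inj ?_⟩
  rw [hw, ← hb, map_mul]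

/-- the ideal of a prime polynomial is reduced -/
theorem DsI_red (C : Cov k R H) {g : k[X]} (hg : Prime g) (z : R)
    (hz : algebraMap k[X] R g ∣ z ^ 2) : algebraMap k[X] R g ∣ z := by
  classical
  have hfin : Fintype H := Fintype.ofFinite H
  obtain ⟨m, x, y, hxy⟩ := C.coord
  have key : ∀ i, algebraMap k[X] R g ∣ ∑ h : H, C.act h (y i * z) := by
    intro i
    obtain ⟨f, hf⟩ := geoA_tr C (y i * z)
    have h1 : algebraMap k[X] R f ∈ (Ideal.span {algebraMap k[X] R g}).radical := by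
      rw [hf]
      refine Ideal.sum_mem _ fun h _ => ?_
      rw [map_mul]
      refine Ideal.mul_mem_left _ _ ⟨2, ?_⟩
      rw [← map_pow, Ideal.mem_span_singleton]
      have h3 := map_dvd (C.act h) hz
      rwa [AlgEquiv.commutes] at h3
    obtain ⟨N, hN⟩ := h1
    rw [← map_pow, Ideal.mem_span_singleton] at hN
    have h2 := hg.dvd_of_dvd_pow (DsI_dvd C hg.ne_zero hN)
    rw [← hf]
    exact map_dvd _ h2
  rw [← geoA_exp C x y hxy z]
  exact Finset.dvd_sum fun i _ => Dvd.dvd.mul_left (key i) _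

/-- prime polynomials are unramified -/
theorem DsI_unr (C : Cov k R H) [IsDedekindDomain R] {g : k[X]} (hg : Prime g) (Q : Ideal R)
    [hQ : Q.IsPrime] (h : algebraMap k[X] R g ∈ Q) :
    DsI_v Q (algebraMap k[X] R g) = 1 := by
  apply DsI_v_eq
  · rwa [pow_one]
  · intro hs2
    obtain ⟨s, hs⟩ : ∃ s : R, s = algebraMap k[X] R g := ⟨_, rfl⟩
    rw [← hs] at h hs2
    have hs0 : s ≠ 0 := by
      intro h0
      exact hg.ne_zero (C.inj ((hs.symm.trans h0).trans (map_zero _).symm))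
    have h1 : Ideal.span {s} ≤ Q ^ 2 := (Ideal.span_singleton_le_iff_mem _).2 hs2
    obtain ⟨J, hJ⟩ := Ideal.dvd_iff_le.2 h1
    rw [pow_two, mul_assoc] at hJ
    have hspan : (Ideal.span {s} : Ideal R) ≠ 0 := by
      rw [Ne, Ideal.zero_eq_bot, Ideal.span_singleton_eq_bot]
      exact hs0
    have hQJ : Q * J ≠ 0 := by
      intro h0
      apply hspan
      rw [hJ, h0, mul_zero]
    have hlt : ¬ (Q * J ≤ Ideal.span {s}) := by
      intro hle
      have heq : Q * J = Q * (Q * J) := by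
        refine le_antisymm (hle.trans_eq hJ) ?_
        exact Ideal.mul_le_inf.trans inf_le_right
      have h2 : 1 * (Q * J) = Q * (Q * J) := by
        rw [one_mul]
        exact heq
      have h3 : (1 : Ideal R) = Q := mul_right_cancel₀ hQJ h2
      exact hQ.ne_top (by rw [← h3, Ideal.one_eq_top])
    obtain ⟨z, hz, hz'⟩ := SetLike.not_le_iff_exists.1 hlt
    apply hz'
    rw [Ideal.mem_span_singleton, hs]
    apply DsI_red C hg
    rw [← hs, ← Ideal.mem_span_singleton, hJ, pow_two]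
    have h4 : z * z ∈ (Q * J) * (Q * J) := Ideal.mul_mem_mul hz hz
    have h5 : (Q * J) * (Q * J) ≤ Q * (Q * J) :=
      Ideal.mul_mono_left (Ideal.mul_le_inf.trans inf_le_left)
    exact h5 h4

/-- the group is transitive on the primes over a prime -/
theorem DsI_trans (C : Cov k R H) (Q Q' : Ideal R) [Q.IsPrime] [Q'.IsPrime]
    (h : Q.comap (algebraMap k[X] R) = Q'.comap (algebraMap k[X] R)) :
    ∃ g : H, ∀ x : R, x ∈ Q ↔ C.act g x ∈ Q' := by
  let i1 : MulSemiringAction H R := MulSemiringAction.compHom R C.act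
  have hsm : ∀ (σ : H) (x : R), σ • x = C.act σ x := fun _ _ => rfl
  have i2 : SMulCommClass H k[X] R := ⟨fun σ f x => by
    rw [hsm, hsm, Algebra.smul_def, Algebra.smul_def, map_mul, AlgEquiv.commutes]⟩
  have i3 : Algebra.IsInvariant k[X] R H := ⟨fun b hb => C.fixed b hb⟩
  obtain ⟨g, hg⟩ := Algebra.IsInvariant.exists_smul_of_under_eq k[X] R H Q Q' h
  refine ⟨g, fun x => ?_⟩
  rw [hg, ← hsm]
  exact Ideal.smul_mem_pointwise_smul_iff.symm

/-- powers -/
theorem DsI_map_pow (e : R →+* R) (Q Q' : Ideal R) (h : ∀ x ∈ Q, e x ∈ Q') (n : ℕ) (x : R)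
    (hx : x ∈ Q ^ n) : e x ∈ Q' ^ n := by
  have h1 : Ideal.map e Q ≤ Q' := Ideal.map_le_iff_le_comap.2 fun y hy => h y hy
  have h2 : e x ∈ Ideal.map e (Q ^ n) := Ideal.mem_map_of_mem e hx
  rw [Ideal.map_pow] at h2
  exact Ideal.pow_right_mono h1 n h2

/-- multiplicities of conjugates -/
theorem DsI_v_act (C : Cov k R H) [IsDedekindDomain R] (Q Q' : Ideal R) [Q.IsPrime] [Q'.IsPrime]
    (hQ0 : Q ≠ ⊥) (g : H) (h : ∀ x : R, x ∈ Q ↔ C.act g x ∈ Q') (a : R) (ha : a ≠ 0) :
    DsI_v Q' (C.act g a) = DsI_v Q a := by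
  obtain ⟨h1, h2⟩ := DsI_v_spec Q hQ0 a ha
  apply DsI_v_eq
  · exact DsI_map_pow (C.act g : R →+* R) Q Q' (fun x hx => (h x).1 hx) _ a h1
  · intro h3
    apply h2
    have hinv : ∀ x : R, C.act g⁻¹ (C.act g x) = x := by
      intro x
      rw [← AlgEquiv.mul_apply, ← map_mul, inv_mul_cancel, map_one]
      rfl
    have hinv' : ∀ x : R, C.act g (C.act g⁻¹ x) = x := by
      intro x
      rw [← AlgEquiv.mul_apply, ← map_mul, mul_inv_cancel, map_one]
      rfl
    have h4 := DsI_map_pow (C.act g⁻¹ : R →+* R) Q' Q (fun x hx => by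
      rw [h]
      change C.act g (C.act g⁻¹ x) ∈ Q'
      rw [hinv']
      exact hx) _ _ h3
    change C.act g⁻¹ (C.act g a) ∈ _ at h4
    rwa [hinv] at h4

end cov

/-- an element whose conjugates differ by `l`-th powers becomes the generator of the `l`-th
power of an ideal after multiplication by a polynomial -/
theorem adjust {k R H : Type} [Field k] [CommRing R] [Algebra k[X] R] [Group H] [Finite H]
    (C : Cov k R H) (l : ℕ) (hl : 0 < l) (A : R) (hA : A ≠ 0)
    (h : ∀ h : H, ∃ x y : R, x ≠ 0 ∧ y ≠ 0 ∧ x ^ l * A = y ^ l * C.act h A) :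
    ∃ f : k[X], f ≠ 0 ∧ Cert l (A * algebraMap k[X] R f) := by
  have hded : IsDedekindDomain R := cov_dedekind C
  have hfm : Module.Finite k[X] R := cov_finite C
  have hint : Algebra.IsIntegral k[X] R := Algebra.IsIntegral.of_finite _ _
  obtain ⟨n, hn⟩ : ∃ n, {Q : Ideal R | Q.IsPrime ∧ Q ≠ ⊥ ∧ ¬ l ∣ DsI_v Q A}.ncard = n := ⟨_, rfl⟩
  induction n using Nat.strong_induction_on generalizing A with
  | _ n ih =>
    by_cases hall : ∀ Q : Ideal R, Q.IsPrime → Q ≠ ⊥ → l ∣ DsI_v Q A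
    · refine ⟨1, one_ne_zero, ?_⟩
      rw [map_one, mul_one]
      exact DsI_cert l hl A hA hall
    · push Not at hall
      obtain ⟨Q, hQ, hQ0, hQl⟩ := hall
      have hc0 : Q.comap (algebraMap k[X] R) ≠ ⊥ := by
        obtain ⟨x, hx, hx0⟩ := Submodule.exists_mem_ne_zero_of_ne_bot hQ0
        exact Ideal.comap_ne_bot_of_integral_mem (R := k[X]) hx0 hx
          (Algebra.IsIntegral.isIntegral x)
      have hcp : (Q.comap (algebraMap k[X] R)).IsPrime := Ideal.comap_isPrime _ Q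
      obtain ⟨g, hg⟩ : ∃ g, g = Submodule.IsPrincipal.generator (Q.comap (algebraMap k[X] R)) :=
        ⟨_, rfl⟩
      have hgp : Prime g := by
        rw [hg]
        exact Submodule.IsPrincipal.prime_generator_of_isPrime _ hc0
      have hgs : Ideal.span {g} = Q.comap (algebraMap k[X] R) := by
        rw [hg]
        exact Ideal.span_singleton_generator _
      have hg0 : algebraMap k[X] R g ≠ 0 := fun h0 =>
        hgp.ne_zero (C.inj (h0.trans (map_zero _).symm))
      obtain ⟨m, hm⟩ : ∃ m, m = (l - 1) * DsI_v Q A := ⟨_, rfl⟩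
      obtain ⟨A', hA'⟩ : ∃ A', A' = A * algebraMap k[X] R g ^ m := ⟨_, rfl⟩
      have hA'0 : A' ≠ 0 := by
        rw [hA']
        exact mul_ne_zero hA (pow_ne_zero _ hg0)
      have hyp : ∀ h : H, ∃ x y : R, x ≠ 0 ∧ y ≠ 0 ∧ x ^ l * A' = y ^ l * C.act h A' := by
        intro σ
        obtain ⟨x, y, hx, hy, hxy⟩ := h σ
        refine ⟨x, y, hx, hy, ?_⟩
        rw [hA', map_mul, map_pow, AlgEquiv.commutes, ← mul_assoc, hxy, mul_assoc]
      -- multiplicities
      have hv : ∀ Q' : Ideal R, DsI_v Q' A' = DsI_v Q' A + m * DsI_v Q' (algebraMap k[X] R g) := by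
        intro Q'
        rw [hA', DsI_v_mul Q' A _ hA (pow_ne_zero _ hg0), DsI_v_pow]
      have hin : ∀ Q' : Ideal R, Q'.IsPrime → Q' ≠ ⊥ → algebraMap k[X] R g ∈ Q' →
          l ∣ DsI_v Q' A' := by
        intro Q' hQ' hQ'0 hgQ'
        have hcp' : (Q'.comap (algebraMap k[X] R)).IsPrime := Ideal.comap_isPrime _ Q'
        have hmax : (Ideal.span {g} : Ideal k[X]).IsMaximal := by
          rw [hgs]
          exact Ring.DimensionLEOne.maximalOfPrime hc0 hcp
        have heq : Q.comap (algebraMap k[X] R) = Q'.comap (algebraMap k[X] R) := by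
          rw [← hgs]
          exact hmax.eq_of_le hcp'.ne_top
            ((Ideal.span_singleton_le_iff_mem _).2 (Ideal.mem_comap.2 hgQ'))
        obtain ⟨σ, hσ⟩ := DsI_trans C Q Q' heq
        have h1 := DsI_v_act C Q Q' hQ0 σ hσ A hA
        obtain ⟨x, y, hx, hy, hxy⟩ := h σ
        have hσA : C.act σ A ≠ 0 := by
          rw [Ne, map_eq_zero_iff _ (C.act σ).injective]
          exact hA
        have h2 : DsI_v Q' (x ^ l * A) = DsI_v Q' (y ^ l * C.act σ A) := by rw [hxy]
        rw [DsI_v_mul Q' _ _ (pow_ne_zero _ hx) hA, DsI_v_mul Q' _ _ (pow_ne_zero _ hy) hσA,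
          DsI_v_pow, DsI_v_pow, h1] at h2
        rw [hv, DsI_unr C hgp Q' hgQ', mul_one, hm]
        have h3 : l * DsI_v Q' x + (DsI_v Q' A + (l - 1) * DsI_v Q A) =
            l * (DsI_v Q' y + DsI_v Q A) := by
          obtain ⟨l', rfl⟩ : ∃ l', l = l' + 1 := ⟨l - 1, by omega⟩
          rw [Nat.add_sub_cancel]
          linarith
        exact (Nat.dvd_add_right (dvd_mul_right l _)).1 (h3 ▸ dvd_mul_right l _)
      have hout : ∀ Q' : Ideal R, Q'.IsPrime → algebraMap k[X] R g ∉ Q' →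
          DsI_v Q' A' = DsI_v Q' A := by
        intro Q' hQ' hgQ'
        have h0 : DsI_v Q' (algebraMap k[X] R g) = 0 := by
          apply DsI_v_eq
          · rw [pow_zero, Ideal.one_eq_top]
            exact Submodule.mem_top
          · rwa [zero_add, pow_one]
        rw [hv, h0, mul_zero, add_zero]
      have hgQ : algebraMap k[X] R g ∈ Q := by
        have h1 : g ∈ Q.comap (algebraMap k[X] R) := by
          rw [← hgs]
          exact Ideal.mem_span_singleton_self g
        exact h1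
      have hlt : {Q : Ideal R | Q.IsPrime ∧ Q ≠ ⊥ ∧ ¬ l ∣ DsI_v Q A'}.ncard < n := by
        rw [← hn]
        apply Set.ncard_lt_ncard _ (DsI_finite l A)
        rw [Set.ssubset_iff_of_subset]
        · exact ⟨Q, ⟨hQ, hQ0, hQl⟩, fun hQ2 => hQ2.2.2 (hin Q hQ hQ0 hgQ)⟩
        · rintro Q' ⟨hQ', hQ'0, hQ'l⟩
          by_cases hgQ' : algebraMap k[X] R g ∈ Q'
          · exact absurd (hin Q' hQ' hQ'0 hgQ') hQ'l
          · refine ⟨hQ', hQ'0, ?_⟩
            rwa [hout Q' hQ' hgQ'] at hQ'l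
      obtain ⟨f, hf0, hf⟩ := ih _ hlt A' hA'0 hyp rfl
      refine ⟨g ^ m * f, mul_ne_zero (pow_ne_zero _ hgp.ne_zero) hf0, ?_⟩
      rw [map_mul, map_pow, ← mul_assoc, ← hA']
      exact hf

end Pool.Agent.AB3
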