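import Pool.Agent.Lib.MP_5de024_nt.S.E.XcB

/-!
# AB3E, XcC: characters of a central kernel extend to crossed homomorphisms
-/

set_option autoImplicit false
set_option linter.unusedSectionVars false

namespace Pool.Agent.AB3

open Polynomial

/-- in a finite `l`-group every proper subgroup is normalised by an element outside whose `l`-th
power lies in the subgroup -/
theorem xcC_step {G : Type} [Group G] [Finite G] {l : ℕ} (hl : l.Prime) (P : Subgroup G)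
    (hP : IsPGroup l P) (A : Subgroup G) (hA : A < P) : ∃ t ∈ P, t ∉ A ∧ t ^ l ∈ A ∧
      (∀ a ∈ A, t * a * t⁻¹ ∈ A) ∧ ∀ a ∈ A, t⁻¹ * a * t ∈ A := by
  have hfact : Fact l.Prime := ⟨hl⟩
  have hnil : Group.IsNilpotent P := hP.isNilpotent
  have hne : A.subgroupOf P < ⊤ := by
    rw [lt_top_iff_ne_top]
    intro h
    rw [Subgroup.subgroupOf_eq_top] at h
    exact absurd hA (not_lt_of_ge h)
  have h1 := Group.normalizerCondition_of_isNilpotent (A.subgroupOf P) hne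
  obtain ⟨s, hs, hsA⟩ := SetLike.exists_of_lt h1
  rw [Subgroup.mem_subgroupOf] at hsA
  -- the set of exponents
  obtain ⟨e, he⟩ := hP s
  have hex : ∃ i : ℕ, (s : G) ^ l ^ i ∈ A := by
    refine ⟨e, ?_⟩
    have h2 : (s : G) ^ l ^ e = 1 := congrArg Subtype.val he
    rw [h2]
    exact A.one_mem
  classical
  obtain ⟨i, hi, hmin⟩ : ∃ i : ℕ, (s : G) ^ l ^ i ∈ A ∧ ∀ j < i, (s : G) ^ l ^ j ∉ A :=
    ⟨Nat.find hex, Nat.find_spec hex, fun j hj => Nat.find_min hex hj⟩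
  have hi0 : i ≠ 0 := by
    rintro rfl
    rw [pow_zero, pow_one] at hi
    exact hsA hi
  obtain ⟨j, rfl⟩ : ∃ j, i = j + 1 := ⟨i - 1, by omega⟩
  have hnorm : s ^ l ^ j ∈ Subgroup.normalizer ((A.subgroupOf P : Subgroup P) : Set P) :=
    Subgroup.pow_mem _ hs _
  have hconj : ∀ r : P, r ∈ Subgroup.normalizer ((A.subgroupOf P : Subgroup P) : Set P) →
      ∀ a ∈ A, (r : G) * a * (r : G)⁻¹ ∈ A := by
    intro r hr a ha
    have h2 : (⟨a, hA.le ha⟩ : P) ∈ A.subgroupOf P := Subgroup.mem_subgroupOf.2 ha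
    have h3 := (Subgroup.mem_normalizer_iff.1 hr ⟨a, hA.le ha⟩).1 h2
    exact Subgroup.mem_subgroupOf.1 h3
  refine ⟨(s : G) ^ l ^ j, P.pow_mem s.2 _, hmin j (by omega), ?_, fun a ha => ?_, fun a ha => ?_⟩
  · rw [← pow_mul, ← pow_succ]
    exact hi
  · exact hconj _ hnorm a ha
  · have h2 := hconj _ (Subgroup.inv_mem _ hnorm) a ha
    have h3 : (((s ^ l ^ j)⁻¹ : P) : G) = ((s : G) ^ l ^ j)⁻¹ := rfl
    rw [h3, inv_inv] at h2
    exact h2

theorem beta_exists {k M Q G : Type} [Field k] [IsAlgClosed k] [Field M] [Algebra k[X] M]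
    [Group Q] [Finite Q] [Group G] [Finite G] {ac : Q →* (M ≃ₐ[k[X]] M)} (hF : FrA k M Q ac)
    (π : G →* Q) (l : ℕ) (hl : l.Prime) (hV : ∀ v ∈ π.ker, v ^ l = 1)
    (hc : ∀ v ∈ π.ker, ∀ g : G, g * v = v * g) (ι : G → M) (hι0 : ∀ v ∈ π.ker, ι v ≠ 0)
    (hι : ∀ v ∈ π.ker, ∀ w ∈ π.ker, ι (v * w) = ι v * ι w)
    (hιQ : ∀ v ∈ π.ker, ∀ g : Q, ac g (ι v) = ι v) :
    ∃ β : G → M, Xh ac π ⊤ β ∧ ∀ v ∈ π.ker, β v = ι v := by
  have hfact : Fact l.Prime := ⟨hl⟩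
  have hkerP : IsPGroup l π.ker := by
    rintro ⟨v, hv⟩
    refine ⟨1, Subtype.ext ?_⟩
    rw [pow_one]
    exact hV v hv
  obtain ⟨P⟩ : Nonempty (Sylow l G) := inferInstance
  have hP : π.ker ≤ (P : Subgroup G) := hkerP.le_sylow_of_normal P
  have hone : ι 1 = 1 := by
    have h1 := hι 1 π.ker.one_mem 1 π.ker.one_mem
    rw [one_mul] at h1
    exact mul_left_cancel₀ (hι0 1 π.ker.one_mem) (by rw [← h1, mul_one])
  have hpow : ∀ v ∈ π.ker, ∀ n : ℕ, ι (v ^ n) = ι v ^ n := by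
    intro v hv n
    induction n with
    | zero => rw [pow_zero, pow_zero, hone]
    | succ n ih => rw [pow_succ, hι _ (π.ker.pow_mem hv n) _ hv, ih, pow_succ]
  -- a maximal subgroup
  obtain ⟨A, hAmax⟩ := Set.Finite.exists_maximal (s := {A : Subgroup G | π.ker ≤ A ∧
      A ≤ (P : Subgroup G) ∧ ∃ β : G → M, Xh ac π A β ∧ ∀ v ∈ π.ker, β v = ι v})
    (Set.toFinite _) ⟨π.ker, le_rfl, hP, ι, ⟨hι0, fun a ha b hb => by
      rw [hι a ha b hb, hιQ b hb]⟩, fun v _ => rfl⟩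
  obtain ⟨⟨hkA, hAP, β, hβ, hβι⟩, hmax⟩ := hAmax
  have hβQ : ∀ v ∈ π.ker, ∀ g : Q, ac g (β v) = β v := by
    intro v hv g
    rw [hβι v hv, hιQ v hv g]
  have hA : A = (P : Subgroup G) := by
    by_contra hne
    obtain ⟨t, htP, htA, htl, hn1, hn2⟩ := xcC_step hl P P.isPGroup' A (lt_of_le_of_ne hAP hne)
    obtain ⟨β', hβ', hβ'A⟩ := x_step hF π hc A hkA t l hl hn1 hn2 htl htA β hβ hβQ
    have h1 : A ⊔ Subgroup.zpowers t ∈ {A : Subgroup G | π.ker ≤ A ∧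
      A ≤ (P : Subgroup G) ∧ ∃ β : G → M, Xh ac π A β ∧ ∀ v ∈ π.ker, β v = ι v} :=
      ⟨hkA.trans le_sup_left, sup_le hAP ((Subgroup.zpowers_le).2 htP), β', hβ',
        fun v hv => by rw [hβ'A v (hkA hv), hβι v hv]⟩
    have h2 := hmax h1 le_sup_left
    exact htA (h2 (le_sup_right (a := A) (Subgroup.mem_zpowers t)))
  subst hA
  obtain ⟨β', hβ', hβ'v⟩ := x_trans ac π P hP hc β hβ hβQ
  have hcop : Nat.Coprime (P : Subgroup G).index l :=
    ((Nat.Prime.coprime_iff_not_dvd hl).2 P.not_dvd_index).symm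
  obtain ⟨m, -, hm⟩ := Nat.exists_mul_mod_eq_one_of_coprime hcop hl.one_lt
  refine ⟨fun g => β' g ^ m, ⟨fun a ha => pow_ne_zero _ (hβ'.1 a ha), fun a ha b hb => ?_⟩,
    fun v hv => ?_⟩
  · change β' (a * b) ^ m = β' a ^ m * ac (π a) (β' b ^ m)
    rw [hβ'.2 a ha b hb, mul_pow, map_pow]
  · change β' v ^ m = ι v
    have h1 : ι v ^ l = 1 := by rw [← hpow v hv, hV v hv, hone]
    rw [hβ'v v hv, hβι v hv, ← pow_mul]
    obtain ⟨q, hq⟩ : ∃ q, q = (P : Subgroup G).index * m / l := ⟨_, rfl⟩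
    have h2 : (P : Subgroup G).index * m = l * q + 1 := by
      have h3 := Nat.div_add_mod ((P : Subgroup G).index * m) l
      rw [hm, ← hq] at h3
      exact h3.symm
    rw [h2, pow_succ, pow_mul, h1, one_pow, one_mul]

end Pool.Agent.AB3
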