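import Pool.Agent.Lib.MP_5de024_nt.S.E.DsA
import Pool.Agent.Lib.MP_5de024_nt.S.E.DsI
import Pool.Agent.Lib.MP_5de024_nt.S.E.XcC

/-!
# AB3E, DsB: the radicand over an algebraically closed field
-/

set_option autoImplicit false
set_option linter.unusedSectionVars false

namespace Pool.Agent.AB3

open Polynomial

/-- every nonzero element of a cover divides a nonzero polynomial -/
theorem DsB_norm {k R H : Type} [Field k] [CommRing R] [IsDomain R] [Algebra k[X] R] [Group H]
    [Finite H] (C : Cov k R H) (d : R) (hd : d ≠ 0) :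
    ∃ (s : k[X]) (e : R), s ≠ 0 ∧ algebraMap k[X] R s = d * e := by
  classical
  have : Fintype H := Fintype.ofFinite H
  obtain ⟨s, hs⟩ := C.fixed (∏ h : H, C.act h d) (fun g => by
    rw [map_prod]
    refine Fintype.prod_equiv (Equiv.mulLeft g) _ _ fun h => ?_
    rw [Equiv.coe_mulLeft, map_mul, AlgEquiv.mul_apply])
  have h0 : (∏ h : H, C.act h d) ≠ 0 := by
    rw [Finset.prod_ne_zero_iff]
    intro h _
    rw [Ne, map_eq_zero_iff _ (C.act h).injective]
    exact hd
  obtain ⟨e, he⟩ : d ∣ ∏ h : H, C.act h d := by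
    have h1 := Finset.dvd_prod_of_mem (fun h => C.act h d) (Finset.mem_univ (1 : H))
    have h2 : C.act 1 d = d := by
      rw [map_one]
      rfl
    simp only [h2] at h1
    exact h1
  refine ⟨s, e, ?_, hs.trans he⟩
  rintro rfl
  rw [map_zero] at hs
  exact h0 hs.symm

/-- a crossed homomorphism whose `l`-th power is a coboundary -/
theorem DsB_beta {k R H G : Type} [Field k] [IsAlgClosed k] [CommRing R] [IsDomain R]
    [Algebra k[X] R]
    [Group H] [Finite H] (C : Cov k R H)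
    (ac : H →* (FractionRing R ≃ₐ[k[X]] FractionRing R))
    (hac : ∀ h r, ac h (algebraMap R (FractionRing R) r) =
        algebraMap R (FractionRing R) (C.act h r)) (hF : FrA k (FractionRing R) H ac)
    [Group G] [Finite G] (π : G →* H)
    (hπ : Function.Surjective π) (l : ℕ) (hl : l.Prime) (hV : ∀ v ∈ π.ker, v ^ l = 1)
    (hc : ∀ v ∈ π.ker, ∀ g : G, g * v = v * g) (ι : G → k) (hι0 : ∀ v ∈ π.ker, ι v ≠ 0)
    (hι : ∀ v ∈ π.ker, ∀ w ∈ π.ker, ι (v * w) = ι v * ι w) :
    ∃ (A : R) (β : G → FractionRing R), A ≠ 0 ∧ (∀ g, β g ≠ 0) ∧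
      (∀ g h, β (g * h) = β g * ac (π g) (β h)) ∧
      (∀ v ∈ π.ker, β v = algebraMap k[X] (FractionRing R) (Polynomial.C (ι v))) ∧
      ∀ g, β g ^ l * algebraMap R (FractionRing R) A =
        algebraMap R (FractionRing R) (C.act (π g) A) := by
  obtain ⟨β, ⟨hβ0, hβ⟩, hβι⟩ := beta_exists hF π l hl hV hc
    (fun v => algebraMap k[X] (FractionRing R) (Polynomial.C (ι v)))
    (fun v hv => by
      rw [Ne, map_eq_zero_iff _ hF.inj, Polynomial.C_eq_zero]
      exact hι0 v hv)
    (fun v hv w hw => by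
      rw [hι v hv w hw, Polynomial.C_mul, map_mul])
    (fun v hv g => AlgEquiv.commutes _ _)
  have hone : ι 1 = 1 := by
    have h1 := hι 1 π.ker.one_mem 1 π.ker.one_mem
    rw [one_mul] at h1
    exact mul_left_cancel₀ (hι0 1 π.ker.one_mem) (by rw [← h1, mul_one])
  have hpow : ∀ v ∈ π.ker, ∀ n : ℕ, ι (v ^ n) = ι v ^ n := by
    intro v hv n
    induction n with
    | zero => rw [pow_zero, pow_zero, hone]
    | succ n ih => rw [pow_succ, hι _ (π.ker.pow_mem hv n) _ hv, ih, pow_succ]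
  have hιl : ∀ v ∈ π.ker, ι v ^ l = 1 := by
    intro v hv
    rw [← hpow v hv, hV v hv, hone]
  have hwd : ∀ g g' : G, π g = π g' → β g ^ l = β g' ^ l := by
    intro g g' hgg
    have hv : g⁻¹ * g' ∈ π.ker := by
      rw [MonoidHom.mem_ker, map_mul, map_inv, hgg, inv_mul_cancel]
    have h1 : g' = g * (g⁻¹ * g') := by rw [mul_inv_cancel_left]
    have h2 : β g' = β g * algebraMap k[X] (FractionRing R) (Polynomial.C (ι (g⁻¹ * g'))) := by
      conv_lhs => rw [h1]
      rw [hβ g (Subgroup.mem_top _) _ (Subgroup.mem_top _), hβι _ hv, AlgEquiv.commutes]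
    rw [h2, mul_pow, ← map_pow, ← Polynomial.C_pow, hιl _ hv, Polynomial.C_1, map_one, mul_one]
  obtain ⟨c, hcdef⟩ : ∃ c : H → FractionRing R, ∀ g, c (π g) = β g ^ l :=
    ⟨fun h => β (Function.surjInv hπ h) ^ l, fun g =>
      hwd _ _ (Function.surjInv_eq hπ (π g))⟩
  obtain ⟨a, ha0, ha⟩ := h90 ac hF.faith ⊤ c
    (fun s _ => by
      obtain ⟨g, rfl⟩ := hπ s
      rw [hcdef]
      exact pow_ne_zero _ (hβ0 g (Subgroup.mem_top _)))
    (fun s _ t _ => by
      obtain ⟨g, rfl⟩ := hπ s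
      obtain ⟨g', rfl⟩ := hπ t
      rw [← map_mul, hcdef, hcdef, hcdef, hβ g (Subgroup.mem_top _) g' (Subgroup.mem_top _),
        mul_pow, map_pow])
  obtain ⟨x, y, hy, hxy⟩ := IsFractionRing.div_surjective (A := R) a
  have hy0 : y ≠ 0 := nonZeroDivisors.ne_zero hy
  have hinj : Function.Injective (algebraMap R (FractionRing R)) := IsFractionRing.injective _ _
  have hψy : algebraMap R (FractionRing R) y ≠ 0 := (map_ne_zero_iff _ hinj).2 hy0
  have hψy' : ∀ h, ac h (algebraMap R (FractionRing R) y) ≠ 0 := fun h =>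
    (map_ne_zero_iff _ (ac h).injective).2 hψy
  have hx0 : x ≠ 0 := by
    rintro rfl
    rw [map_zero, zero_div] at hxy
    exact ha0 hxy.symm
  have hA : algebraMap R (FractionRing R) (x * y ^ (l - 1)) =
      a * algebraMap R (FractionRing R) y ^ l := by
    obtain ⟨m, rfl⟩ : ∃ m, l = m + 1 := ⟨l - 1, by have := hl.pos; omega⟩
    rw [Nat.add_sub_cancel, map_mul, map_pow, pow_succ, ← mul_assoc, mul_right_comm, ← hxy,
      div_mul_cancel₀ _ hψy]
  refine ⟨x * y ^ (l - 1), fun g => β g * ac (π g) (algebraMap R (FractionRing R) y) /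
    algebraMap R (FractionRing R) y, mul_ne_zero hx0 (pow_ne_zero _ hy0), fun g =>
      div_ne_zero (mul_ne_zero (hβ0 g (Subgroup.mem_top _)) (hψy' _)) hψy, ?_, ?_, ?_⟩
  · intro g h
    change β (g * h) * ac (π (g * h)) (algebraMap R (FractionRing R) y) /
      algebraMap R (FractionRing R) y = β g * ac (π g) (algebraMap R (FractionRing R) y) /
      algebraMap R (FractionRing R) y * ac (π g) (β h * ac (π h)
      (algebraMap R (FractionRing R) y) / algebraMap R (FractionRing R) y)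
    rw [hβ g (Subgroup.mem_top _) h (Subgroup.mem_top _), map_mul π, map_mul ac,
      AlgEquiv.mul_apply, map_div₀, map_mul (ac (π g)), div_mul_div_comm, div_eq_div_iff hψy
      (mul_ne_zero hψy (hψy' _))]
    ring
  · intro v hv
    change β v * ac (π v) (algebraMap R (FractionRing R) y) /
      algebraMap R (FractionRing R) y = _
    have h1 : π v = 1 := hv
    have h2 : ac 1 (algebraMap R (FractionRing R) y) = algebraMap R (FractionRing R) y := by
      rw [map_one]
      rfl
    rw [h1, h2, mul_div_cancel_right₀ _ hψy, hβι v hv]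
  · intro g
    change (β g * ac (π g) (algebraMap R (FractionRing R) y) /
      algebraMap R (FractionRing R) y) ^ l * _ = _
    rw [← hac, hA, map_mul, map_pow, ← ha _ (Subgroup.mem_top _), hcdef, div_pow, mul_pow]
    have h3 : algebraMap R (FractionRing R) y ^ l ≠ 0 := pow_ne_zero _ hψy
    rw [div_mul_eq_mul_div, div_eq_iff h3]
    ring

theorem rad_bar {k R H G : Type} [Field k] [IsAlgClosed k] [CommRing R] [Algebra k[X] R]
    [Group H] [Finite H] (C : Cov k R H) [Group G] [Finite G] (π : G →* H)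
    (hπ : Function.Surjective π) (l : ℕ) (hl : l.Prime) (hV : ∀ v ∈ π.ker, v ^ l = 1)
    (hc : ∀ v ∈ π.ker, ∀ g : G, g * v = v * g) (ι : G → k) (hι0 : ∀ v ∈ π.ker, ι v ≠ 0)
    (hι : ∀ v ∈ π.ker, ∀ w ∈ π.ker, ι (v * w) = ι v * ι w) :
    ∃ (A : R) (s : k[X]) (b : G → R), A ≠ 0 ∧ s ≠ 0 ∧ Cert l A ∧
      (∀ g h, b (g * h) * algebraMap k[X] R s = b g * C.act (π g) (b h)) ∧
      (∀ v ∈ π.ker, b v = algebraMap k[X] R (Polynomial.C (ι v) * s)) ∧
      ∀ g, b g ^ l * A = algebraMap k[X] R s ^ l * C.act (π g) A := by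
  have hdom := cov_domain C
  obtain ⟨ac, hac, hF⟩ := cov_frac C
  obtain ⟨A, β, hA0, hβ0, hβ, hβι, hβA⟩ := DsB_beta C ac hac hF π hπ l hl hV hc ι hι0 hι
  have hinj : Function.Injective (algebraMap R (FractionRing R)) := IsFractionRing.injective _ _
  -- the common denominator
  obtain ⟨d, hd⟩ := IsLocalization.exist_integer_multiples_of_finite (nonZeroDivisors R) β
  obtain ⟨s, e, hs0, hse⟩ := DsB_norm C (d : R) (nonZeroDivisors.ne_zero d.2)
  have hb : ∀ g, ∃ b : R, algebraMap R (FractionRing R) b =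
      algebraMap R (FractionRing R) (algebraMap k[X] R s) * β g := by
    intro g
    obtain ⟨r, hr⟩ := hd g
    refine ⟨e * r, ?_⟩
    rw [map_mul, hr, hse, map_mul, Algebra.smul_def]
    ring
  choose b hb using hb
  have hs1 : algebraMap k[X] R s ≠ 0 := (map_ne_zero_iff _ C.inj).2 hs0
  have hψs : algebraMap R (FractionRing R) (algebraMap k[X] R s) ≠ 0 :=
    (map_ne_zero_iff _ hinj).2 hs1
  have hb0 : ∀ g, b g ≠ 0 := by
    intro g hg
    have h1 := hb g
    rw [hg, map_zero] at h1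
    exact mul_ne_zero hψs (hβ0 g) h1.symm
  have hbA : ∀ g, b g ^ l * A = algebraMap k[X] R s ^ l * C.act (π g) A := by
    intro g
    apply hinj
    rw [map_mul, map_pow, hb, mul_pow, mul_assoc, hβA, map_mul, map_pow]
  obtain ⟨f, hf0, hf⟩ := adjust C l hl.pos A hA0 (fun h => by
    obtain ⟨g, rfl⟩ := hπ h
    exact ⟨b g, algebraMap k[X] R s, hb0 g, hs1, hbA g⟩)
  refine ⟨A * algebraMap k[X] R f, s, b, mul_ne_zero hA0 ((map_ne_zero_iff _ C.inj).2 hf0), hs0,
    hf, ?_, ?_, ?_⟩
  · intro g h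
    apply hinj
    rw [map_mul, map_mul, ← hac, hb, hb, hb, map_mul, hβ, hac, AlgEquiv.commutes]
    ring
  · intro v hv
    apply hinj
    rw [hb, hβι v hv, IsScalarTower.algebraMap_apply k[X] R (FractionRing R), ← map_mul,
      ← map_mul, mul_comm]
  · intro g
    rw [map_mul, AlgEquiv.commutes, ← mul_assoc, hbA, mul_assoc]

end Pool.Agent.AB3
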