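import Pool.Agent.Lib.MP_5de024_nt.S.GeoM
import Pool.Agent.Lib.MP_5de024_nt.S.GeoB

/-!
# AB3E, DsL: descent to a finite field
-/

set_option autoImplicit false
set_option linter.unusedSectionVars false

namespace Pool.Agent.AB3

open Polynomial

/-- compatibility of the substitutions -/
theorem DsL_compat (k : Type) [Field k] (K : Type) [Field K] [Algebra k K]
    (F : IntermediateField k K) (f : k[X]) :
    mapRingHom (algebraMap F K) (evg k F X f) = evg k K X f := by
  have h : (mapRingHom (algebraMap F K)).comp (evg k F X) = evg k K X := by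
    apply Polynomial.ringHom_ext
    · intro a
      rw [RingHom.comp_apply]
      simp only [evg, coe_eval₂RingHom, eval₂_C, RingHom.comp_apply, coe_mapRingHom, map_C]
      rw [← IsScalarTower.algebraMap_apply]
    · rw [RingHom.comp_apply]
      simp only [evg, coe_eval₂RingHom, eval₂_X, coe_mapRingHom, map_X]
  exact RingHom.congr_fun h f

/-- lifting a polynomial to an intermediate field -/
theorem DsL_lift {k K : Type} [Field k] [Field K] [Algebra k K] (F : IntermediateField k K)
    (f : K[X]) (h : ∀ x ∈ f.coeffs, x ∈ F) : ∃ g : F[X], g.map (algebraMap F K) = f := by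
  rw [← Polynomial.mem_lifts, Polynomial.lifts_iff_coeff_lifts]
  intro n
  by_cases hn : f.coeff n = 0
  · exact ⟨0, by rw [map_zero, hn]⟩
  · exact ⟨⟨f.coeff n, h _ (Polynomial.coeff_mem_coeffs hn)⟩, rfl⟩

/-- finitely many elements over an algebraic extension come from a finite field -/
theorem fam_level {k R H : Type} [Field k] [Finite k] [CommRing R] [Algebra k[X] R] [Group H]
    [Finite H] (C : Cov k R H) (K : Type) [Field K] [Algebra k K] [Algebra.IsAlgebraic k K]
    (J J' : Type) [Finite J] [Finite J'] (z : J → Fam k K X R) (s : J' → K[X]) :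
    ∃ (F : IntermediateField k K) (τ : Fam k F X R →+* Fam k K X R), Finite F ∧
      Function.Injective τ ∧
      (∀ f : F[X], τ (algebraMap F[X] (Fam k F X R) f) =
        algebraMap K[X] (Fam k K X R) (f.map (algebraMap F K))) ∧
      (∀ r : R, τ (Bs.inR (evg k F X) R r) = Bs.inR (evg k K X) R r) ∧
      (∀ h w, τ (Bs.act (evg k F X) C.act h w) = Bs.act (evg k K X) C.act h (τ w)) ∧
      (∀ j, ∃ z', τ z' = z j) ∧ ∀ j, ∃ s' : F[X], s'.map (algebraMap F K) = s j := by
  classical
  obtain ⟨b⟩ := cov_basis C
  obtain ⟨S, hSdef⟩ : ∃ S : Set K, S = (⋃ j, ⋃ i,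
      (((Bs.basis (evg k K X) b).repr (z j) i).coeffs : Set K)) ∪
      ⋃ j, ((s j).coeffs : Set K) := ⟨_, rfl⟩
  have hS : S.Finite := by
    rw [hSdef]
    exact (Set.finite_iUnion fun j => Set.finite_iUnion fun i => Finset.finite_toSet _).union
      (Set.finite_iUnion fun j => Finset.finite_toSet _)
  have hS1 : ∀ j i, ∀ x ∈ ((Bs.basis (evg k K X) b).repr (z j) i).coeffs,
      x ∈ IntermediateField.adjoin k S := by
    intro j i x hx
    apply IntermediateField.subset_adjoin k S
    rw [hSdef]
    exact Or.inl (Set.mem_iUnion.2 ⟨j, Set.mem_iUnion.2 ⟨i, hx⟩⟩)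
  have hS2 : ∀ j, ∀ x ∈ (s j).coeffs, x ∈ IntermediateField.adjoin k S := by
    intro j x hx
    apply IntermediateField.subset_adjoin k S
    rw [hSdef]
    exact Or.inr (Set.mem_iUnion.2 ⟨j, hx⟩)
  have : Finite S := hS
  have hfd : FiniteDimensional k (IntermediateField.adjoin k S) :=
    IntermediateField.finiteDimensional_adjoin fun x _ => Algebra.IsIntegral.isIntegral x
  refine ⟨IntermediateField.adjoin k S,
    Bs.map (evg k (IntermediateField.adjoin k S) X)
      (mapRingHom (algebraMap (IntermediateField.adjoin k S) K)) (evg k K X)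
      (DsL_compat k K (IntermediateField.adjoin k S)), Module.finite_of_finite k, ?_, ?_, ?_, ?_,
      ?_, ?_⟩
  · exact bs_map_inj C _ _ _ _ (Polynomial.map_injective _
      (algebraMap (IntermediateField.adjoin k S) K).injective)
  · intro f
    exact Bs.map_alg _ _ _ _ f
  · intro r
    exact Bs.map_inR _ _ _ _ r
  · intro h w
    exact bs_map_act C _ _ _ _ h w
  · intro j
    choose g hg using fun i => DsL_lift (IntermediateField.adjoin k S)
      ((Bs.basis (evg k K X) b).repr (z j) i) (hS1 j i)
    refine ⟨(Bs.basis (evg k (IntermediateField.adjoin k S) X) b).equivFun.symm g, ?_⟩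
    apply (Bs.basis (evg k K X) b).repr.injective
    ext1 i
    rw [bs_map_repr, ← Module.Basis.equivFun_apply, LinearEquiv.apply_symm_apply]
    exact hg i
  · intro j
    exact DsL_lift _ _ (hS2 j)

end Pool.Agent.AB3
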