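import Pool.Agent.Lib.MP_5de024_nt.S.E.DsB
import Pool.Agent.Lib.MP_5de024_nt.S.E.DsL
import Pool.Agent.Lib.MP_5de024_nt.S.GeoV

/-!
# AB3E, DsC: the radicands over a finite field
-/

set_option autoImplicit false
set_option linter.unusedSectionVars false

namespace Pool.Agent.AB3

open Polynomial

theorem rad_finite {k R H G : Type} [Field k] [Finite k] [CommRing R] [Algebra k[X] R]
    [Group H] [Finite H] (C : Cov k R H) [Group G] [Finite G] (π : G →* H)
    (hπ : Function.Surjective π) (l : ℕ) (hl : l.Prime) (hV : ∀ v ∈ π.ker, v ^ l = 1)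
    (hc : ∀ v ∈ π.ker, ∀ g : G, g * v = v * g) (J : Type) [Finite J] (ι : J → G → k)
    (hι0 : ∀ j, ∀ v ∈ π.ker, ι j v ≠ 0)
    (hι : ∀ j, ∀ v ∈ π.ker, ∀ w ∈ π.ker, ι j (v * w) = ι j v * ι j w) :
    ∃ (F : Type) (_ : Field F) (_ : Finite F) (_ : Algebra k F) (A : J → Fam k F X R)
      (s : J → F[X]) (b : J → G → Fam k F X R), ∀ j, A j ≠ 0 ∧ s j ≠ 0 ∧ Cert l (A j) ∧
      (∀ g h, b j (g * h) * algebraMap F[X] (Fam k F X R) (s j) =
        b j g * Bs.act (evg k F X) C.act (π g) (b j h)) ∧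
      (∀ v ∈ π.ker, b j v =
        algebraMap F[X] (Fam k F X R) (Polynomial.C (algebraMap k F (ι j v)) * s j)) ∧
      ∀ g, b j g ^ l * A j =
        algebraMap F[X] (Fam k F X R) (s j) ^ l * Bs.act (evg k F X) C.act (π g) (A j) := by
  classical
  obtain ⟨C', hC'⟩ := cov_bc k R H C (AlgebraicClosure k) X (fun F' _ _ _ _ => by
    rw [Polynomial.map_X]
    exact C.geom F')
  have hrad := fun j => rad_bar C' π hπ l hl hV hc
    (fun g => algebraMap k (AlgebraicClosure k) (ι j g))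
    (fun v hv => by
      rw [Ne, map_eq_zero_iff _ (algebraMap k (AlgebraicClosure k)).injective]
      exact hι0 j v hv)
    (fun v hv w hw => by rw [hι j v hv w hw, map_mul])
  choose A s b hA hs hcert hb hbv hbA using hrad
  choose a0 a1 c0 c1 d0 d1 h0 h1 h2 using hcert
  obtain ⟨F, τ, hF, hτ, hτf, hτr, hτa, hτz, hτs⟩ := fam_level C (AlgebraicClosure k)
    (J × (G ⊕ Fin 7)) J
    (fun q => Sum.elim (b q.1) (![A q.1, a0 q.1, a1 q.1, c0 q.1, c1 q.1, d0 q.1, d1 q.1]) q.2) s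
  choose s' hs' using hτs
  choose b' hb' using fun j g => hτz (j, Sum.inl g)
  choose A' hA' using fun j => hτz (j, Sum.inr 0)
  choose a0' ha0' using fun j => hτz (j, Sum.inr 1)
  choose a1' ha1' using fun j => hτz (j, Sum.inr 2)
  choose c0' hc0' using fun j => hτz (j, Sum.inr 3)
  choose c1' hc1' using fun j => hτz (j, Sum.inr 4)
  choose d0' hd0' using fun j => hτz (j, Sum.inr 5)
  choose d1' hd1' using fun j => hτz (j, Sum.inr 6)
  have eb : ∀ j g, τ (b' j g) = b j g := hb'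
  have eA : ∀ j, τ (A' j) = A j := hA'
  have ea0 : ∀ j, τ (a0' j) = a0 j := ha0'
  have ea1 : ∀ j, τ (a1' j) = a1 j := ha1'
  have ec0 : ∀ j, τ (c0' j) = c0 j := hc0'
  have ec1 : ∀ j, τ (c1' j) = c1 j := hc1'
  have ed0 : ∀ j, τ (d0' j) = d0 j := hd0'
  have ed1 : ∀ j, τ (d1' j) = d1 j := hd1'
  refine ⟨F, inferInstance, hF, inferInstance, A', s', b', fun j => ⟨?_, ?_, ?_, ?_, ?_, ?_⟩⟩
  · intro h
    apply hA j
    rw [← eA, h, map_zero]
  · intro h
    apply hs j
    rw [← hs', h, Polynomial.map_zero]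
  · refine ⟨a0' j, a1' j, c0' j, c1' j, d0' j, d1' j, ?_, ?_, ?_⟩
    · apply hτ
      rw [map_pow, map_mul, ea0, eA, ec0, h0]
    · apply hτ
      rw [map_pow, map_mul, ea1, eA, ec1, h1]
    · apply hτ
      rw [map_add, map_mul, map_mul, ed0, ec0, ed1, ec1, h2, map_one]
  · intro g h
    apply hτ
    rw [map_mul, map_mul, hτf, hτa, hs', eb, eb, eb, hb, hC']
  · intro v hv
    apply hτ
    rw [hτf, eb, hbv j v hv, Polynomial.map_mul, Polynomial.map_C, hs',
      ← IsScalarTower.algebraMap_apply]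
  · intro g
    apply hτ
    rw [map_mul, map_mul, map_pow, map_pow, hτf, hτa, hs', eb, eA, hbA, hC']

end Pool.Agent.AB3
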