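import Pool.Agent.Lib.MP_5de024_nt.S.E.Def
import Pool.Agent.Lib.MP_5de024_nt.S.Tsen

/-!
# AB3E, TsE: norms are surjective
-/

set_option autoImplicit false
set_option linter.unusedSectionVars false

namespace Pool.Agent.AB3

open Polynomial

/-- the norm to the fixed field of one automorphism of order `l` -/
theorem tsE_cyc {K L : Type} [Field K] [Field L] [Algebra K L] [FiniteDimensional K L]
    (σ : L ≃ₐ[K] L) (l : ℕ) (ho : orderOf σ = l) (z : L) :
    algebraMap (IntermediateField.fixedField (Subgroup.zpowers σ)) L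
      (Algebra.norm (IntermediateField.fixedField (Subgroup.zpowers σ)) z) =
      ∏ i ∈ Finset.range l, (σ ^ i) z := by
  classical
  have h1 : IsGalois (IntermediateField.fixedField (Subgroup.zpowers σ)) L :=
    IsGalois.of_fixed_field L (Subgroup.zpowers σ)
  rw [Algebra.norm_eq_prod_automorphisms, Finset.prod_range]
  have hfin : IsOfFinOrder σ := isOfFinOrder_of_finite σ
  symm
  refine Fintype.prod_equiv ((finCongr ho.symm).trans ((finEquivZPowers hfin).trans
      (IntermediateField.subgroupEquivAlgEquiv (Subgroup.zpowers σ)).toEquiv)) _ _ fun i => ?_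
  rfl

/-- Tsen's theorem for the norm of a cyclic extension -/
theorem tsen_fr {k M Q : Type} [Field k] [IsAlgClosed k] [Field M] [Algebra k[X] M] [Group Q]
    [Finite Q] {ac : Q →* (M ≃ₐ[k[X]] M)} (hF : FrA k M Q ac) (S : Subgroup Q) (t : Q) (l : ℕ)
    (hl : l.Prime) (hn1 : ∀ s ∈ S, t * s * t⁻¹ ∈ S) (hn2 : ∀ s ∈ S, t⁻¹ * s * t ∈ S)
    (htl : t ^ l ∈ S) (ht : t ∉ S) (f : M) (hf0 : f ≠ 0) (hfS : ∀ s ∈ S, ac s f = f)
    (hft : ac t f = f) :
    ∃ y : M, (∀ s ∈ S, ac s y = y) ∧ ∏ i ∈ Finset.range l, ac (t ^ i) y = f := by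
  classical
  let _ : MulSemiringAction Q M := MulSemiringAction.compHom M ac
  have hsm : ∀ (g : Q) (y : M), g • y = ac g y := fun _ _ => rfl
  -- the field of fractions of the polynomials
  have hmem : ∀ p : k[X], algebraMap k[X] M p ∈ FixedPoints.subfield Q M :=
    fun p g => (ac g).commutes p
  let _ : Algebra k[X] (FixedPoints.subfield Q M) :=
    ((algebraMap k[X] M).codRestrict (FixedPoints.subfield Q M) hmem).toAlgebra
  have hval : ∀ p : k[X], ((algebraMap k[X] (FixedPoints.subfield Q M) p :
      FixedPoints.subfield Q M) : M) = algebraMap k[X] M p := fun _ => rfl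
  have hinj : Function.Injective (algebraMap k[X] (FixedPoints.subfield Q M)) := by
    intro p q hpq
    apply hF.inj
    rw [← hval, ← hval, hpq]
  have : FaithfulSMul k[X] (FixedPoints.subfield Q M) :=
    (faithfulSMul_iff_algebraMap_injective _ _).2 hinj
  have hfr : IsFractionRing k[X] (FixedPoints.subfield Q M) := by
    refine IsFractionRing.of_field _ _ fun z => ?_
    obtain ⟨a, b, hb, hab⟩ := hF.fixed (z : M) (fun g => z.2 g)
    refine ⟨a, b, ?_⟩
    have hb0 : algebraMap k[X] (FixedPoints.subfield Q M) b ≠ 0 := by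
      intro h
      exact hb (hinj (h.trans (map_zero _).symm))
    rw [eq_div_iff hb0, mul_comm]
    exact Subtype.ext hab
  have hfd : FiniteDimensional (FixedPoints.subfield Q M) M := inferInstance
  -- the action by automorphisms over the fixed field
  let φ : Q →* (M ≃ₐ[FixedPoints.subfield Q M] M) :=
    MulSemiringAction.toAlgAut Q (FixedPoints.subfield Q M) M
  have hφ : ∀ (g : Q) (y : M), φ g y = ac g y := fun _ _ => rfl
  have hφi : Function.Injective φ := by
    intro g h hgh
    apply hF.faith
    ext y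
    rw [← hφ, ← hφ, hgh]
  -- the field fixed by `S`
  have hL : ∀ y : M, y ∈ IntermediateField.fixedField (S.map φ) ↔ ∀ s ∈ S, ac s y = y := by
    intro y
    rw [IntermediateField.mem_fixedField_iff]
    constructor
    · intro h s hs
      exact h (φ s) (Subgroup.mem_map_of_mem φ hs)
    · rintro h g ⟨s, hs, rfl⟩
      exact h s hs
  have hst : ∀ y : M, y ∈ IntermediateField.fixedField (S.map φ) →
      ac t y ∈ IntermediateField.fixedField (S.map φ) := by
    intro y hy
    rw [hL] at hy ⊢
    intro s hs
    have h1 : ac s (ac t y) = ac t (ac (t⁻¹ * s * t) y) := by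
      rw [← AlgEquiv.mul_apply, ← AlgEquiv.mul_apply, ← map_mul, ← map_mul]
      congr 2
      group
    rw [h1, hy _ (hn2 s hs)]
  have hst' : ∀ y : M, y ∈ IntermediateField.fixedField (S.map φ) →
      ac t⁻¹ y ∈ IntermediateField.fixedField (S.map φ) := by
    intro y hy
    rw [hL] at hy ⊢
    intro s hs
    have h1 : ac s (ac t⁻¹ y) = ac t⁻¹ (ac (t * s * t⁻¹) y) := by
      rw [← AlgEquiv.mul_apply, ← AlgEquiv.mul_apply, ← map_mul, ← map_mul]
      congr 2
      group
    rw [h1, hy _ (hn1 s hs)]
  let σ : (IntermediateField.fixedField (S.map φ)) ≃ₐ[FixedPoints.subfield Q M]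
      (IntermediateField.fixedField (S.map φ)) :=
    { toFun := fun y => ⟨ac t y, hst y y.2⟩
      invFun := fun y => ⟨ac t⁻¹ y, hst' y y.2⟩
      left_inv := fun y => Subtype.ext (by
        change ac t⁻¹ (ac t y) = y
        rw [← AlgEquiv.mul_apply, ← map_mul, inv_mul_cancel, map_one]
        rfl)
      right_inv := fun y => Subtype.ext (by
        change ac t (ac t⁻¹ y) = y
        rw [← AlgEquiv.mul_apply, ← map_mul, mul_inv_cancel, map_one]
        rfl)
      map_mul' := fun y z => Subtype.ext (map_mul (ac t) _ _)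
      map_add' := fun y z => Subtype.ext (map_add (ac t) _ _)
      commutes' := fun c => Subtype.ext (c.2 t) }
  have hσ : ∀ y, ((σ y : IntermediateField.fixedField (S.map φ)) : M) = ac t y := fun _ => rfl
  have hσp : ∀ (i : ℕ) y, (((σ ^ i) y : IntermediateField.fixedField (S.map φ)) : M) =
      ac (t ^ i) y := by
    intro i
    induction i with
    | zero =>
      intro y
      rw [pow_zero, pow_zero, map_one]
      rfl
    | succ i ih =>
      intro y
      rw [pow_succ, pow_succ, AlgEquiv.mul_apply, ih, hσ, map_mul, AlgEquiv.mul_apply]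
  have hord : orderOf σ = l := by
    have : Fact l.Prime := ⟨hl⟩
    refine orderOf_eq_prime ?_ ?_
    · ext y
      rw [hσp]
      exact (hL y).1 y.2 _ htl
    · intro h
      apply ht
      have h1 : φ t ∈ IntermediateField.fixingSubgroup
          (IntermediateField.fixedField (S.map φ)) := by
        rw [IntermediateField.mem_fixingSubgroup_iff]
        intro y hy
        have h2 := hσ ⟨y, hy⟩
        rw [h] at h2
        exact h2.symm
      rw [IntermediateField.fixingSubgroup_fixedField] at h1
      obtain ⟨s, hs, hst⟩ := h1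
      rwa [← hφi hst]
  -- the element
  have hfL : f ∈ IntermediateField.fixedField (S.map φ) := (hL f).2 hfS
  have hfF : (⟨f, hfL⟩ : IntermediateField.fixedField (S.map φ)) ∈
      IntermediateField.fixedField (Subgroup.zpowers σ) := by
    rw [IntermediateField.mem_fixedField_iff]
    have h0 : σ ⟨f, hfL⟩ = ⟨f, hfL⟩ := Subtype.ext hft
    intro g hg
    have h1 : Subgroup.zpowers σ ≤ MulAction.stabilizer
        ((IntermediateField.fixedField (S.map φ)) ≃ₐ[FixedPoints.subfield Q M]
          (IntermediateField.fixedField (S.map φ)))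
        (⟨f, hfL⟩ : IntermediateField.fixedField (S.map φ)) := by
      rw [Subgroup.zpowers_le]
      exact h0
    exact h1 hg
  obtain ⟨z, hz⟩ := tsen_norm k (FixedPoints.subfield Q M)
    (IntermediateField.fixedField (Subgroup.zpowers σ))
    (IntermediateField.fixedField (S.map φ)) ⟨⟨f, hfL⟩, hfF⟩
  refine ⟨z, (hL z).1 z.2, ?_⟩
  have h1 := tsE_cyc σ l hord z
  rw [hz] at h1
  have h2 := congrArg (fun y : IntermediateField.fixedField (S.map φ) => (y : M)) h1
  have h3 : ((∏ i ∈ Finset.range l, (σ ^ i) z : IntermediateField.fixedField (S.map φ)) : M) =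
      ∏ i ∈ Finset.range l, ac (t ^ i) z := by
    rw [← IntermediateField.coe_val, map_prod]
    exact Finset.prod_congr rfl fun i _ => hσp i z
  rw [← h3]
  exact h2.symm

end Pool.Agent.AB3
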