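import Pool.Agent.Lib.MP_5de024_nt.S.E.Def
import Mathlib.LinearAlgebra.LinearIndependent.Lemmas

/-!
# AB3E, XcA: Hilbert 90
-/

set_option autoImplicit false
set_option linter.unusedSectionVars false

namespace Pool.Agent.AB3

open Polynomial

/-- Hilbert 90 for a subgroup of a group acting faithfully on a field -/
theorem h90 {k M Q : Type} [Field k] [Field M] [Algebra k[X] M] [Group Q] [Finite Q]
    (ac : Q →* (M ≃ₐ[k[X]] M)) (hac : Function.Injective ac) (S : Subgroup Q) (c : Q → M) (hc0 : ∀ s ∈ S, c s ≠ 0)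
    (hc : ∀ s ∈ S, ∀ t ∈ S, c (s * t) = c s * ac s (c t)) :
    ∃ a : M, a ≠ 0 ∧ ∀ s ∈ S, c s * a = ac s a := by
  classical
  have hfin : Finite S := inferInstance
  have := Fintype.ofFinite S
  let F : S → (M →* M) := fun s => ((ac s : M ≃ₐ[k[X]] M).toRingEquiv : M ≃+* M).toRingHom.toMonoidHom
  have hFap : ∀ (s : S) (z : M), F s z = ac s z := fun s z => rfl
  have hF : Function.Injective F := by
    intro s t hst
    apply Subtype.ext
    apply hac
    ext z
    rw [← hFap s z, ← hFap t z, hst]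
  have hli : LinearIndependent M (fun s : S => (F s : M → M)) :=
    (linearIndependent_monoidHom M M).comp F hF
  rw [Fintype.linearIndependent_iff] at hli
  obtain ⟨z, hz⟩ : ∃ z : M, ∑ s : S, c s * ac s z ≠ 0 := by
    by_contra hcon
    push Not at hcon
    have h1 := hli (fun s => c s) (by
      ext z
      rw [Finset.sum_apply, Pi.zero_apply]
      exact hcon z) 1
    exact hc0 1 S.one_mem h1
  set b : M := ∑ s : S, c s * ac s z with hb
  have hkey : ∀ s ∈ S, c s * ac s b = b := by
    intro s hs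
    rw [hb, map_sum, Finset.mul_sum]
    refine Fintype.sum_equiv (Equiv.mulLeft (⟨s, hs⟩ : S)) _ _ fun t => ?_
    rw [Equiv.coe_mulLeft, Subgroup.coe_mul, hc s hs t t.2, map_mul (ac s), map_mul ac,
      AlgEquiv.mul_apply, mul_assoc]
  refine ⟨b⁻¹, inv_ne_zero hz, fun s hs => ?_⟩
  have h2 : ac s b ≠ 0 := by
    intro h0
    apply hz
    rw [← hkey s hs, h0, mul_zero]
  rw [map_inv₀, ← div_eq_mul_inv, div_eq_iff hz, inv_mul_eq_div, eq_div_iff h2]
  exact hkey s hs

end Pool.Agent.AB3
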