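import Pool.Agent.Lib.MP_5de024_nt.S.E.Def

/-!
# AB3E, XcT: the product over cosets
-/

set_option autoImplicit false
set_option linter.unusedSectionVars false

namespace Pool.Agent.AB3

open Polynomial

/-- from a subgroup to the group -/
theorem x_trans {k M Q G : Type} [Field k] [Field M] [Algebra k[X] M] [Group Q] [Group G]
    [Finite G] (ac : Q →* (M ≃ₐ[k[X]] M)) (π : G →* Q) (P : Subgroup G) (hP : π.ker ≤ P)
    (hc : ∀ v ∈ π.ker, ∀ g : G, g * v = v * g) (β : G → M) (hβ : Xh ac π P β)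
    (hι : ∀ v ∈ π.ker, ∀ g : Q, ac g (β v) = β v) :
    ∃ β' : G → M, Xh ac π ⊤ β' ∧ ∀ v ∈ π.ker, β' v = β v ^ P.index := by
  classical
  have hfin : Finite (G ⧸ P) := inferInstance
  have hft : Fintype (G ⧸ P) := Fintype.ofFinite _
  obtain ⟨hβ0, hβm⟩ := hβ
  -- representatives of the left cosets
  obtain ⟨s, hs⟩ : ∃ s : G ⧸ P → G, ∀ i, (QuotientGroup.mk (s i) : G ⧸ P) = i :=
    ⟨Quotient.out, fun i => Quotient.out_eq' i⟩
  obtain ⟨p, hp⟩ : ∃ p : G ⧸ P → G → G, ∀ i g, p i g = (s i)⁻¹ * g * s (g⁻¹ • i) :=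
    ⟨_, fun _ _ => rfl⟩
  have hmem : ∀ i g, p i g ∈ P := by
    intro i g
    rw [hp, mul_assoc, ← QuotientGroup.eq, hs]
    have h1 : (QuotientGroup.mk (g * s (g⁻¹ • i)) : G ⧸ P) =
        g • (QuotientGroup.mk (s (g⁻¹ • i)) : G ⧸ P) := rfl
    rw [h1, hs, smul_inv_smul]
  have hmul : ∀ i g h, p i (g * h) = p i g * p (g⁻¹ • i) h := by
    intro i g h
    rw [hp, hp, hp, mul_inv_rev, mul_smul]
    group
  have hsp : ∀ i g, s i * p i g = g * s (g⁻¹ • i) := by
    intro i g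
    rw [hp]
    group
  have hac : ∀ (a b : Q) (z : M), ac (a * b) z = ac a (ac b z) := by
    intro a b z
    rw [map_mul, AlgEquiv.mul_apply]
  refine ⟨fun g => ∏ i, ac (π (s i)) (β (p i g)), ⟨fun g _ => ?_, fun g _ h _ => ?_⟩,
    fun v hv => ?_⟩
  · rw [Finset.prod_ne_zero_iff]
    intro i _ h
    exact hβ0 _ (hmem i g) ((map_eq_zero_iff _ (ac (π (s i))).injective).1 h)
  · show ∏ i, ac (π (s i)) (β (p i (g * h))) =
      (∏ i, ac (π (s i)) (β (p i g))) * ac (π g) (∏ i, ac (π (s i)) (β (p i h)))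
    have h1 : ∀ i, ac (π (s i)) (β (p i (g * h))) = ac (π (s i)) (β (p i g)) *
        ac (π g) (ac (π (s (g⁻¹ • i))) (β (p (g⁻¹ • i) h))) := by
      intro i
      rw [hmul, hβm _ (hmem i g) _ (hmem _ h), map_mul, ← hac, ← map_mul, hsp, map_mul, hac]
    rw [Finset.prod_congr rfl fun i _ => h1 i, Finset.prod_mul_distrib, ← map_prod]
    congr 2
    exact Equiv.prod_comp (MulAction.toPerm g⁻¹)
      (fun j : G ⧸ P => ac (π (s j)) (β (p j h)))
  · show ∏ i, ac (π (s i)) (β (p i v)) = β v ^ P.index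
    have h1 : ∀ i, ac (π (s i)) (β (p i v)) = β v := by
      intro i
      have h2 : v⁻¹ • i = i := by
        conv_lhs => rw [← hs i]
        have h3 : v⁻¹ • (QuotientGroup.mk (s i) : G ⧸ P) = QuotientGroup.mk (v⁻¹ * s i) := rfl
        rw [h3, ← hc v⁻¹ (Subgroup.inv_mem _ hv) (s i)]
        conv_rhs => rw [← hs i]
        rw [QuotientGroup.eq, mul_inv_rev, mul_assoc, inv_mul_cancel, mul_one, inv_inv]
        exact hP hv
      have h4 : p i v = v := by
        rw [hp, h2, mul_assoc, ← hc v hv, inv_mul_cancel_left]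
      rw [h4, hι v hv]
    rw [Finset.prod_congr rfl fun i _ => h1 i, Finset.prod_const, Finset.card_univ,
      Subgroup.index, Nat.card_eq_fintype_card]

end Pool.Agent.AB3
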