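import Pool.Agent.Lib.MP_5de024_nt.S.E.TsE
import Pool.Agent.Lib.MP_5de024_nt.S.E.XcA
import Pool.Agent.Lib.MP_5de024_nt.S.E.XcT

/-!
# AB3E, XcB: extension of a crossed homomorphism by one step
-/

set_option autoImplicit false
set_option linter.unusedSectionVars false

namespace Pool.Agent.AB3

open Polynomial

section XcB

variable {k M Q G : Type} [Field k] [Field M] [Algebra k[X] M] [Group Q] [Group G]
  (ac : Q →* (M ≃ₐ[k[X]] M)) (π : G →* Q)

/-- the partial norms `∏_{j<i} ac (π t ^ j) y` -/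
noncomputable def xcbN (t : G) (y : M) (i : ℕ) : M := ∏ j ∈ Finset.range i, ac (π t ^ j) y

theorem xcb_ac_mul (g h : Q) (x : M) : ac (g * h) x = ac g (ac h x) := by
  rw [map_mul]
  rfl

theorem xcb_ac_one (x : M) : ac 1 x = x := by
  rw [map_one]
  rfl

theorem xcb_ne (g : Q) {x : M} (hx : x ≠ 0) : ac g x ≠ 0 := by
  intro h
  exact hx ((ac g).injective (h.trans (map_zero (ac g)).symm))

theorem xcbN_zero (t : G) (y : M) : xcbN ac π t y 0 = 1 := by
  simp [xcbN]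

theorem xcbN_add (t : G) (y : M) (i j : ℕ) :
    xcbN ac π t y (i + j) = xcbN ac π t y i * ac (π t ^ i) (xcbN ac π t y j) := by
  unfold xcbN
  rw [Finset.prod_range_add, map_prod]
  congr 1
  refine Finset.prod_congr rfl fun m _ => ?_
  rw [pow_add, xcb_ac_mul]

theorem xcbN_one (t : G) (y : M) : xcbN ac π t y 1 = y := by
  unfold xcbN
  rw [Finset.prod_range_one, pow_zero, xcb_ac_one]

theorem xcbN_succ (t : G) (y : M) (i : ℕ) :
    xcbN ac π t y (i + 1) = y * ac (π t) (xcbN ac π t y i) := by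
  rw [add_comm, xcbN_add, xcbN_one, pow_one]

theorem xcbN_ne (t : G) {y : M} (hy : y ≠ 0) (i : ℕ) : xcbN ac π t y i ≠ 0 := by
  unfold xcbN
  exact Finset.prod_ne_zero_iff.2 fun j _ => xcb_ne ac _ hy

theorem xcbN_mul (t : G) (y z : M) (i : ℕ) :
    xcbN ac π t (y * z) i = xcbN ac π t y i * xcbN ac π t z i := by
  unfold xcbN
  rw [← Finset.prod_mul_distrib]
  exact Finset.prod_congr rfl fun j _ => map_mul _ _ _

theorem xcb_conj (A : Subgroup G) (t : G) (hn1 : ∀ a ∈ A, t * a * t⁻¹ ∈ A) (i : ℕ) :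
    ∀ a ∈ A, t ^ i * a * (t ^ i)⁻¹ ∈ A := by
  induction i with
  | zero => intro a ha; simpa using ha
  | succ i ih =>
    intro a ha
    have h1 := hn1 _ (ih a ha)
    have h2 : t * (t ^ i * a * (t ^ i)⁻¹) * t⁻¹ = t ^ (i + 1) * a * (t ^ (i + 1))⁻¹ := by
      rw [pow_succ']
      group
    rw [h2] at h1
    exact h1

/-- the iterated twisted relation -/
theorem xcb_iter (A : Subgroup G) (t : G) (hn1 : ∀ a ∈ A, t * a * t⁻¹ ∈ A) (β : G → M) (y : M)
    (hy : ∀ a ∈ A, β (t * a * t⁻¹) * ac (π (t * a * t⁻¹)) y = y * ac (π t) (β a)) (i : ℕ) :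
    ∀ a ∈ A, β (t ^ i * a * (t ^ i)⁻¹) * ac (π (t ^ i * a * (t ^ i)⁻¹)) (xcbN ac π t y i)
      = xcbN ac π t y i * ac (π t ^ i) (β a) := by
  induction i with
  | zero =>
    intro a _
    rw [xcbN_zero, pow_zero, pow_zero, xcb_ac_one, map_one]
    simp
  | succ i ih =>
    intro a ha
    have hai := xcb_conj A t hn1 i a ha
    have h1 := hy _ hai
    have h2 : t * (t ^ i * a * (t ^ i)⁻¹) * t⁻¹ = t ^ (i + 1) * a * (t ^ (i + 1))⁻¹ := by
      rw [pow_succ']
      group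
    have h3 := ih a ha
    set ai := t ^ i * a * (t ^ i)⁻¹ with hai'
    rw [← h2, xcbN_succ, map_mul]
    rw [← xcb_ac_mul ac (π (t * ai * t⁻¹)) (π t)]
    have h4 : π (t * ai * t⁻¹) * π t = π t * π ai := by
      rw [← map_mul, ← map_mul]
      congr 1
      group
    rw [h4, xcb_ac_mul]
    calc β (t * ai * t⁻¹) * (ac (π (t * ai * t⁻¹)) y * ac (π t) (ac (π ai) (xcbN ac π t y i)))
        = (β (t * ai * t⁻¹) * ac (π (t * ai * t⁻¹)) y) *
            ac (π t) (ac (π ai) (xcbN ac π t y i)) := by ring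
      _ = (y * ac (π t) (β ai)) * ac (π t) (ac (π ai) (xcbN ac π t y i)) := by rw [h1]
      _ = y * ac (π t) (β ai * ac (π ai) (xcbN ac π t y i)) := by
          rw [map_mul (ac (π t)), mul_assoc]
      _ = y * ac (π t) (xcbN ac π t y i * ac (π t ^ i) (β a)) := by rw [h3]
      _ = y * ac (π t) (xcbN ac π t y i) * ac (π t ^ (i + 1)) (β a) := by
          rw [map_mul (ac (π t)), pow_succ', xcb_ac_mul, mul_assoc]

/-- the first step: Hilbert 90 -/
theorem xcb_first [Finite Q] [Finite G] (hac : Function.Injective ac)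
    (hc : ∀ v ∈ π.ker, ∀ g : G, g * v = v * g) (A : Subgroup G) (hA : π.ker ≤ A) (t : G)
    (hn1 : ∀ a ∈ A, t * a * t⁻¹ ∈ A) (β : G → M) (hβ : Xh ac π A β)
    (hι : ∀ v ∈ π.ker, ∀ g : Q, ac g (β v) = β v) :
    ∃ y : M, y ≠ 0 ∧
      ∀ a ∈ A, β (t * a * t⁻¹) * ac (π (t * a * t⁻¹)) y = y * ac (π t) (β a) := by
  classical
  obtain ⟨hb0, hb⟩ := hβ
  -- the twisted quotient
  set c : G → M := fun a => ac (π t)⁻¹ (β (t * a * t⁻¹)) / β a with hcdef
  have hc0 : ∀ a ∈ A, c a ≠ 0 := by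
    intro a ha
    exact div_ne_zero (xcb_ne ac _ (hb0 _ (hn1 a ha))) (hb0 a ha)
  have hcm : ∀ a ∈ A, ∀ b ∈ A, c (a * b) = c a * ac (π a) (c b) := by
    intro a ha b hb'
    have h1 : t * (a * b) * t⁻¹ = (t * a * t⁻¹) * (t * b * t⁻¹) := by group
    have h2 := hb _ (hn1 a ha) _ (hn1 b hb')
    simp only [hcdef]
    rw [h1, h2, hb a ha b hb', map_mul, map_div₀]
    rw [← xcb_ac_mul ac (π t)⁻¹ (π (t * a * t⁻¹)), ← xcb_ac_mul ac (π a) (π t)⁻¹]
    have h3 : (π t)⁻¹ * π (t * a * t⁻¹) = π a * (π t)⁻¹ := by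
      rw [map_mul, map_mul, map_inv]
      group
    rw [h3]
    have n1 := hb0 a ha
    have n2 := xcb_ne ac (π a) (hb0 b hb')
    field_simp
  have hcv : ∀ v ∈ π.ker, c v = 1 := by
    intro v hv
    have h1 : t * v * t⁻¹ = v := by rw [hc v hv t]; group
    simp only [hcdef]
    rw [h1, hι v hv, div_self (hb0 v (hA hv))]
  have hcwd : ∀ a ∈ A, ∀ a' ∈ A, π a = π a' → c a = c a' := by
    intro a ha a' ha' h
    have hv : a⁻¹ * a' ∈ π.ker := by
      rw [MonoidHom.mem_ker, map_mul, map_inv, h, inv_mul_cancel]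
    have h1 := hcm a ha (a⁻¹ * a') (hA hv)
    rw [hcv _ hv, map_one, mul_one, mul_inv_cancel_left] at h1
    exact h1.symm
  -- descend to the image
  have hex : ∀ s : Q, ∃ a : G, s ∈ A.map π → a ∈ A ∧ π a = s := by
    intro s
    by_cases hs : s ∈ A.map π
    · obtain ⟨a, ha, ha2⟩ := hs
      exact ⟨a, fun _ => ⟨ha, ha2⟩⟩
    · exact ⟨1, fun h => absurd h hs⟩
  choose r hr using hex
  obtain ⟨z, hz0, hz⟩ := h90 ac hac (A.map π) (fun s => c (r s))
    (fun s hs => hc0 _ (hr s hs).1)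
    (by
      intro s hs s' hs'
      obtain ⟨h1, h2⟩ := hr s hs
      obtain ⟨h3, h4⟩ := hr s' hs'
      obtain ⟨h5, h6⟩ := hr (s * s') ((A.map π).mul_mem hs hs')
      have h7 : c (r (s * s')) = c (r s * r s') := by
        apply hcwd _ h5 _ (A.mul_mem h1 h3)
        rw [h6, map_mul, h2, h4]
      rw [h7, hcm _ h1 _ h3, h2])
  have hza : ∀ a ∈ A, c a * z = ac (π a) z := by
    intro a ha
    have hs : π a ∈ A.map π := ⟨a, ha, rfl⟩
    obtain ⟨h1, h2⟩ := hr (π a) hs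
    have h3 := hz (π a) hs
    rw [hcwd _ h1 _ ha h2] at h3
    exact h3
  refine ⟨(ac (π t) z)⁻¹, inv_ne_zero (xcb_ne ac _ hz0), fun a ha => ?_⟩
  have h1 := hza a ha
  simp only [hcdef] at h1
  have n1 := hb0 a ha
  have h2 : ac (π t)⁻¹ (β (t * a * t⁻¹)) * z = β a * ac (π a) z := by
    rw [← h1]
    field_simp
  have h3 := congrArg (ac (π t)) h2
  rw [map_mul, map_mul, ← xcb_ac_mul ac (π t) (π t)⁻¹, mul_inv_cancel, xcb_ac_one,
    ← xcb_ac_mul ac (π t) (π a)] at h3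
  have h4 : π t * π a = π (t * a * t⁻¹) * π t := by
    rw [← map_mul, ← map_mul]
    congr 1
    group
  rw [h4, xcb_ac_mul] at h3
  rw [map_inv₀]
  have n2 : ac (π t) z ≠ 0 := xcb_ne ac _ hz0
  have n3 : ac (π (t * a * t⁻¹)) (ac (π t) z) ≠ 0 := xcb_ne ac _ n2
  field_simp
  linear_combination h3

end XcB

/-- the step from `A` to `A ⟨t⟩` -/
theorem x_step {k M Q G : Type} [Field k] [IsAlgClosed k] [Field M] [Algebra k[X] M] [Group Q]
    [Finite Q] [Group G] [Finite G] {ac : Q →* (M ≃ₐ[k[X]] M)} (hF : FrA k M Q ac) (π : G →* Q)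
    (hc : ∀ v ∈ π.ker, ∀ g : G, g * v = v * g) (A : Subgroup G) (hA : π.ker ≤ A) (t : G)
    (l : ℕ) (hl : l.Prime) (hn1 : ∀ a ∈ A, t * a * t⁻¹ ∈ A) (hn2 : ∀ a ∈ A, t⁻¹ * a * t ∈ A)
    (htl : t ^ l ∈ A) (ht : t ∉ A) (β : G → M) (hβ : Xh ac π A β)
    (hι : ∀ v ∈ π.ker, ∀ g : Q, ac g (β v) = β v) :
    ∃ β' : G → M, Xh ac π (A ⊔ Subgroup.zpowers t) β' ∧ ∀ a ∈ A, β' a = β a := by
  classical
  obtain ⟨y₀, hy₀, hst₀⟩ := xcb_first ac π hF.faith hc A hA t hn1 β hβ hι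
  obtain ⟨hb0, hb⟩ := id hβ
  have hN := xcb_iter ac π A t hn1 β y₀ hst₀ l
  have hYn : xcbN ac π t y₀ l ≠ 0 := xcbN_ne ac π t hy₀ l
  set Y := xcbN ac π t y₀ l with hY
  have hf0 : β (t ^ l) / Y ≠ 0 := div_ne_zero (hb0 _ htl) hYn
  -- invariance under A
  have hfA : ∀ a ∈ A, ac (π a) (β (t ^ l) / Y) = β (t ^ l) / Y := by
    intro a ha
    set a' := (t ^ l)⁻¹ * a * t ^ l with ha'
    have ha'A : a' ∈ A := A.mul_mem (A.mul_mem (A.inv_mem htl) ha) htl
    have e1 : t ^ l * a' * (t ^ l)⁻¹ = a := by rw [ha']; group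
    have h1 := hN a' ha'A
    rw [e1] at h1
    have h2 := hb a ha (t ^ l) htl
    have h3 := hb (t ^ l) htl a' ha'A
    have e2 : a * t ^ l = t ^ l * a' := by rw [ha']; group
    rw [e2, h3, map_pow] at h2
    have h4 : ac (π a) Y ≠ 0 := xcb_ne ac _ hYn
    rw [map_div₀, div_eq_div_iff h4 hYn]
    have n1 := hb0 a ha
    apply mul_left_cancel₀ n1
    linear_combination (-Y) * h2 - β (t ^ l) * h1
  have hft : ac (π t) (β (t ^ l) / Y) = β (t ^ l) / Y := by
    have h1 := hst₀ (t ^ l) htl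
    have e1 : t * t ^ l * t⁻¹ = t ^ l := by
      rw [← pow_succ', pow_succ]; group
    rw [e1] at h1
    have h2 : ac (π t) Y * y₀ = Y * ac (π (t ^ l)) y₀ := by
      have h3 := xcbN_succ ac π t y₀ l
      have h4 := xcbN_add ac π t y₀ l 1
      rw [h3, xcbN_one, ← map_pow] at h4
      rw [← hY] at h4
      rw [← h4]
      ring
    have h4 : ac (π t) Y ≠ 0 := xcb_ne ac _ hYn
    rw [map_div₀, div_eq_div_iff h4 hYn]
    apply mul_left_cancel₀ hy₀
    linear_combination (-Y) * h1 - β (t ^ l) * h2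
  have hn1' : ∀ s ∈ A.map π, π t * s * (π t)⁻¹ ∈ A.map π := by
    rintro s ⟨a, ha, rfl⟩
    exact ⟨t * a * t⁻¹, hn1 a ha, by rw [map_mul, map_mul, map_inv]⟩
  have hn2' : ∀ s ∈ A.map π, (π t)⁻¹ * s * π t ∈ A.map π := by
    rintro s ⟨a, ha, rfl⟩
    exact ⟨t⁻¹ * a * t, hn2 a ha, by rw [map_mul, map_mul, map_inv]⟩
  have htn : π t ∉ A.map π := by
    rintro ⟨a, ha, h⟩
    apply ht
    have hv : a⁻¹ * t ∈ π.ker := by
      rw [MonoidHom.mem_ker, map_mul, map_inv, ← h, inv_mul_cancel]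
    have := A.mul_mem ha (hA hv)
    rwa [mul_inv_cancel_left] at this
  obtain ⟨w, hwS, hw⟩ := tsen_fr hF (A.map π) (π t) l hl hn1' hn2'
    ⟨t ^ l, htl, map_pow π t l⟩ htn (β (t ^ l) / Y) hf0
    (by rintro s ⟨a, ha, rfl⟩; exact hfA a ha) hft
  have hwA : ∀ a ∈ A, ac (π a) w = w := fun a ha => hwS _ ⟨a, ha, rfl⟩
  have hw0 : w ≠ 0 := by
    rintro rfl
    apply hf0
    rw [← hw]
    apply Finset.prod_eq_zero (Finset.mem_range.2 hl.pos)
    exact map_zero _
  set y := y₀ * w with hy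
  have hy0 : y ≠ 0 := mul_ne_zero hy₀ hw0
  have hst : ∀ a ∈ A, β (t * a * t⁻¹) * ac (π (t * a * t⁻¹)) y = y * ac (π t) (β a) := by
    intro a ha
    rw [hy, map_mul, hwA _ (hn1 a ha)]
    linear_combination w * hst₀ a ha
  set N : ℕ → M := xcbN ac π t y with hNdef
  have hNl : N l = β (t ^ l) := by
    rw [hNdef, hy, xcbN_mul, ← hY]
    have : xcbN ac π t w l = β (t ^ l) / Y := hw
    rw [this]
    field_simp
  have hit := xcb_iter ac π A t hn1 β y hst
  have hcj := xcb_conj A t hn1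
  have hNn : ∀ i, N i ≠ 0 := xcbN_ne ac π t hy0
  have hNa : ∀ i j, N (i + j) = N i * ac (π (t ^ i)) (N j) := by
    intro i j
    rw [map_pow]
    exact xcbN_add ac π t y i j
  -- norms over multiples of `l`
  have hb1 : β 1 = 1 := by
    have h1 := hb 1 A.one_mem 1 A.one_mem
    rw [mul_one, map_one, xcb_ac_one] at h1
    have h2 := hb0 1 A.one_mem
    have h3 : β 1 * β 1 = β 1 * 1 := by rw [mul_one]; exact h1.symm
    exact mul_left_cancel₀ h2 h3
  have hNm : ∀ m : ℕ, N (l * m) = β (t ^ (l * m)) := by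
    intro m
    induction m with
    | zero => rw [mul_zero, pow_zero, hb1]; exact xcbN_zero ac π t y
    | succ m ih =>
      rw [mul_add, mul_one, hNa, ih, hNl, pow_add]
      have h1 : t ^ (l * m) ∈ A := by rw [pow_mul]; exact A.pow_mem htl m
      rw [hb _ h1 _ htl]
  have hdvd : ∀ m : ℕ, t ^ m ∈ A → l ∣ m := by
    intro m hm
    by_contra hnd
    have hco : Nat.Coprime l m := (Nat.Prime.coprime_iff_not_dvd hl).2 hnd
    apply ht
    have h1 : (1 : ℤ) = l * Nat.gcdA l m + m * Nat.gcdB l m := by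
      have h2 := Nat.gcd_eq_gcd_ab l m
      rw [hco.gcd_eq_one] at h2
      exact_mod_cast h2
    have h3 : t = (t ^ l) ^ (Nat.gcdA l m) * (t ^ m) ^ (Nat.gcdB l m) := by
      rw [← zpow_natCast t l, ← zpow_natCast t m, ← zpow_mul, ← zpow_mul, ← zpow_add, ← h1,
        zpow_one]
    rw [h3]
    exact A.mul_mem (A.zpow_mem htl _) (A.zpow_mem hm _)
  -- the value does not depend on the representation
  have hwd' : ∀ a ∈ A, ∀ a' ∈ A, ∀ i d : ℕ, a * t ^ i = a' * t ^ (i + d) →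
      β a * ac (π a) (N i) = β a' * ac (π a') (N (i + d)) := by
    intro a ha a' ha' i d h
    have h1 : a = a' * t ^ d := by
      have h2 : a = a' * t ^ (i + d) * (t ^ i)⁻¹ := by rw [← h]; group
      rw [h2, add_comm i d, pow_add]
      group
    have h2 : t ^ d ∈ A := by
      have h3 : t ^ d = a'⁻¹ * a := by rw [h1]; group
      rw [h3]
      exact A.mul_mem (A.inv_mem ha') ha
    obtain ⟨m, rfl⟩ := hdvd d h2
    rw [add_comm i, hNa, hNm, h1, hb a' ha' _ h2, map_mul π, xcb_ac_mul, map_mul (ac (π a'))]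
    ring
  have hwd : ∀ a ∈ A, ∀ a' ∈ A, ∀ i j : ℕ, a * t ^ i = a' * t ^ j →
      β a * ac (π a) (N i) = β a' * ac (π a') (N j) := by
    intro a ha a' ha' i j h
    rcases le_total i j with hij | hij
    · obtain ⟨d, rfl⟩ := Nat.exists_eq_add_of_le hij
      exact hwd' a ha a' ha' i d h
    · obtain ⟨d, rfl⟩ := Nat.exists_eq_add_of_le hij
      exact (hwd' a' ha' a ha j d h.symm).symm
  -- the group
  have hrep : ∀ g ∈ A ⊔ Subgroup.zpowers t, ∃ a ∈ A, ∃ i : ℕ, g = a * t ^ i := by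
    have hmul : ∀ g h : G, (∃ a ∈ A, ∃ i : ℕ, g = a * t ^ i) → (∃ a ∈ A, ∃ i : ℕ, h = a * t ^ i) →
        ∃ a ∈ A, ∃ i : ℕ, g * h = a * t ^ i := by
      rintro g h ⟨a, ha, i, rfl⟩ ⟨b, hb', j, rfl⟩
      refine ⟨a * (t ^ i * b * (t ^ i)⁻¹), A.mul_mem ha (hcj i b hb'), i + j, ?_⟩
      rw [pow_add]
      group
    have hone : ∃ a ∈ A, ∃ i : ℕ, (1 : G) = a * t ^ i := ⟨1, A.one_mem, 0, by simp⟩
    have hpow : ∀ g : G, (∃ a ∈ A, ∃ i : ℕ, g = a * t ^ i) → ∀ n : ℕ,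
        ∃ a ∈ A, ∃ i : ℕ, g ^ n = a * t ^ i := by
      intro g hg n
      induction n with
      | zero => rw [pow_zero]; exact hone
      | succ n ih => rw [pow_succ]; exact hmul _ _ ih hg
    let H : Subgroup G :=
      { carrier := {g | ∃ a ∈ A, ∃ i : ℕ, g = a * t ^ i}
        mul_mem' := fun {g h} hg hh => hmul g h hg hh
        one_mem' := hone
        inv_mem' := by
          intro g hg
          have h1 : g⁻¹ = g ^ (orderOf g - 1) := by
            have h2 : 0 < orderOf g := orderOf_pos g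
            have h3 : g ^ (orderOf g - 1) * g = 1 := by
              rw [← pow_succ, Nat.sub_add_cancel h2, pow_orderOf_eq_one]
            exact (eq_inv_of_mul_eq_one_left h3).symm
          rw [h1]
          exact hpow g hg _ }
    have hH : A ⊔ Subgroup.zpowers t ≤ H := by
      refine sup_le (fun a ha => ⟨a, ha, 0, by simp⟩) ?_
      rw [Subgroup.zpowers_le]
      exact ⟨1, A.one_mem, 1, by simp⟩
    exact fun g hg => hH hg
  have hrep' : ∀ g : G, ∃ p : G × ℕ, g ∈ A ⊔ Subgroup.zpowers t → p.1 ∈ A ∧ g = p.1 * t ^ p.2 := by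
    intro g
    by_cases hg : g ∈ A ⊔ Subgroup.zpowers t
    · obtain ⟨a, ha, i, h⟩ := hrep g hg
      exact ⟨(a, i), fun _ => ⟨ha, h⟩⟩
    · exact ⟨(1, 0), fun h => absurd h hg⟩
  choose p hp using hrep'
  have hval : ∀ a ∈ A, ∀ i : ℕ, β (p (a * t ^ i)).1 * ac (π (p (a * t ^ i)).1) (N (p (a * t ^ i)).2)
      = β a * ac (π a) (N i) := by
    intro a ha i
    have hg : a * t ^ i ∈ A ⊔ Subgroup.zpowers t :=
      Subgroup.mul_mem _ ((le_sup_left : A ≤ A ⊔ Subgroup.zpowers t) ha)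
        (Subgroup.pow_mem _ ((le_sup_right : Subgroup.zpowers t ≤ A ⊔ Subgroup.zpowers t)
          (Subgroup.mem_zpowers t)) i)
    obtain ⟨h1, h2⟩ := hp _ hg
    exact hwd _ h1 _ ha _ _ h2.symm
  refine ⟨fun g => β (p g).1 * ac (π (p g).1) (N (p g).2), ⟨?_, ?_⟩, ?_⟩
  · intro g hg
    obtain ⟨h1, -⟩ := hp g hg
    exact mul_ne_zero (hb0 _ h1) (xcb_ne ac _ (hNn _))
  · intro g hg h hh
    obtain ⟨a, ha, i, rfl⟩ := hrep g hg
    obtain ⟨b, hb', j, rfl⟩ := hrep h hh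
    dsimp only
    have e1 : a * t ^ i * (b * t ^ j) = (a * (t ^ i * b * (t ^ i)⁻¹)) * t ^ (i + j) := by
      rw [pow_add]
      group
    rw [e1, hval _ (A.mul_mem ha (hcj i b hb')), hval a ha, hval b hb']
    rw [hb a ha _ (hcj i b hb'), hNa, map_mul π a, map_mul π a, xcb_ac_mul, xcb_ac_mul]
    have h1 := hit i b hb'
    rw [← map_pow] at h1
    have e2 : ac (π (t ^ i * b * (t ^ i)⁻¹)) (ac (π (t ^ i)) (N j)) =
        ac (π (t ^ i)) (ac (π b) (N j)) := by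
      rw [← xcb_ac_mul, ← xcb_ac_mul, ← map_mul, ← map_mul]
      congr 2
      group
    have h2 : β (t ^ i * b * (t ^ i)⁻¹) * ac (π (t ^ i * b * (t ^ i)⁻¹))
        (N i * ac (π (t ^ i)) (N j)) = N i * ac (π (t ^ i)) (β b * ac (π b) (N j)) := by
      rw [map_mul, e2, map_mul (ac (π (t ^ i)))]
      linear_combination ac (π (t ^ i)) (ac (π b) (N j)) * h1
    have h3 := congrArg (ac (π a)) h2
    rw [map_mul (ac (π a)), map_mul (ac (π a))] at h3
    linear_combination β a * h3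
  · intro a ha
    have h1 := hval a ha 0
    rw [pow_zero, mul_one] at h1
    dsimp only
    rw [h1]
    have h2 : N 0 = 1 := xcbN_zero ac π t y
    rw [h2, map_one, mul_one]

end Pool.Agent.AB3
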